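import Pool.Agent.H977.LQ.Par

/-!
# The parameters in terms of the size of the discriminants
-/

set_option autoImplicit false

namespace Pool.Agent.H977.LQ

open Filter Real Finset

theorem choose_ge : ∀ (k m : ℕ), 1 ≤ k → k ≤ m → ((m : ℝ) / k) ^ k ≤ (m.choose k : ℝ) := by
  intro k
  induction k with
  | zero => intro m h _; omega
  | succ k ih =>
    intro m _ hkm
    obtain ⟨m, rfl⟩ : ∃ m', m = m' + 1 := ⟨m - 1, by omega⟩
    rcases Nat.eq_zero_or_pos k with hk | hk
    · subst hk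
      simp
    · have h1 := ih m hk (by omega)
      have h2 : (m + 1) * m.choose k = (m + 1).choose (k + 1) * (k + 1) := Nat.add_one_mul_choose_eq m k
      have h3 : ((m : ℝ) + 1) * (m.choose k : ℝ) = ((m + 1).choose (k + 1) : ℝ) * ((k : ℝ) + 1) := by
        exact_mod_cast h2
      have hkr : (0 : ℝ) < k := by exact_mod_cast hk
      have h4 : ((m : ℝ) + 1) / (k + 1) ≤ (m : ℝ) / k := by
        rw [div_le_div_iff₀ (by positivity) hkr]
        have : (k : ℝ) ≤ m := by exact_mod_cast (by omega : k ≤ m)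
        nlinarith
      have h5 : (((m : ℝ) + 1) / (k + 1)) ^ k ≤ (m.choose k : ℝ) :=
        (pow_le_pow_left₀ (by positivity) h4 k).trans h1
      push_cast
      rw [pow_succ]
      have h6 : ((m + 1).choose (k + 1) : ℝ) = (m.choose k : ℝ) * (((m : ℝ) + 1) / (k + 1)) := by
        field_simp
        linarith
      rw [h6]
      exact mul_le_mul_of_nonneg_right h5 (by positivity)

theorem choose_le (k m : ℕ) (Y : ℝ) (hY : 0 < Y) (hk : 1 ≤ k) (hm : (m : ℝ) ≤ Y) :
    (m.choose k : ℝ) ≤ Real.exp (k * Real.log Y - k * (Real.log k - 1)) := by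
  have hkr : (0 : ℝ) < k := by exact_mod_cast hk
  have h1 : (m.choose k : ℝ) ≤ (m : ℝ) ^ k / k.factorial := Nat.choose_le_pow_div k m
  have h2 : (k : ℝ) ^ k / k.factorial ≤ Real.exp k := Real.pow_div_factorial_le_exp _ hkr.le k
  have h3 : (0 : ℝ) < k.factorial := by exact_mod_cast Nat.factorial_pos k
  have h4 : (m : ℝ) ^ k / k.factorial ≤ Y ^ k * (Real.exp k / (k : ℝ) ^ k) := by
    rw [div_le_iff₀ h3]
    have h5 : (k : ℝ) ^ k ≤ Real.exp k * k.factorial := by
      rwa [div_le_iff₀ h3] at h2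
    have h6 : (m : ℝ) ^ k ≤ Y ^ k := pow_le_pow_left₀ (Nat.cast_nonneg _) hm k
    have h7 : 1 ≤ Real.exp k * k.factorial / (k : ℝ) ^ k := by
      rw [le_div_iff₀ (by positivity), one_mul]
      exact h5
    calc (m : ℝ) ^ k ≤ Y ^ k * 1 := by rw [mul_one]; exact h6
      _ ≤ Y ^ k * (Real.exp k * k.factorial / (k : ℝ) ^ k) := by gcongr
      _ = _ := by ring
  refine h1.trans (h4.trans (le_of_eq ?_))
  have h5 : Real.exp (k * Real.log Y - k * (Real.log k - 1)) =
      Real.exp (k * Real.log Y) * (Real.exp k / Real.exp (k * Real.log k)) := by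
    rw [← Real.exp_sub, ← Real.exp_add]
    congr 1
    ring
  rw [h5, mul_comm (k : ℝ) (Real.log Y), Real.exp_mul, Real.exp_log hY, Real.rpow_natCast,
    mul_comm (k : ℝ) (Real.log k), Real.exp_mul, Real.exp_log hkr, Real.rpow_natCast]

/-- the odd primes up to `Y` -/
noncomputable def PL (a : ℝ) (X : ℕ) : Finset ℕ := (Finset.Icc 3 (YY a (Real.log X))).filter Nat.Prime

/-- the number of factors -/
noncomputable def kL (ν a : ℝ) (X : ℕ) : ℕ := kk ν a (Real.log X)

theorem nums (a κ ν η : ℝ) (ha : 1 < a) (hκ1 : κ < 1 - 1 / a) (hν : 0 < ν)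
    (hν1 : ν ≤ 1) (hη : 0 < η) : ∀ᶠ X : ℕ in atTop,
    1 ≤ kL ν a X ∧ ((YY a (Real.log X) : ℕ) : ℝ) ^ kL ν a X ≤ (X : ℝ) ^ ν ∧
    (400 : ℝ) ^ kL ν a X ≤ (X : ℝ) ^ η ∧
    (((PL a X).card.choose (kL ν a X) : ℕ) : ℝ) ≤ (X : ℝ) ^ (ν * (1 - 1 / a) + η) ∧
    (∀ m : ℕ, (Real.log X) ^ (a * (1 - κ)) / 4 ≤ m →
      (X : ℝ) ^ (ν * (1 - κ - 1 / a) - η) ≤ ((m.choose (kL ν a X) : ℕ) : ℝ)) ∧
    (∀ d : ℝ, (X : ℝ) / 4 ≤ d → d ≤ 2 * X → (Real.log d) ^ a ≤ YY a (Real.log X) ∧
      (Real.log X) ^ (a * (1 - κ)) / 4 + 1 ≤ ((Real.log d) ^ a) ^ (1 - κ) ∧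
      (kL ν a X : ℝ) ≤ Real.log d / Real.log (Real.log d)) := by
  have ht : Tendsto (fun X : ℕ => Real.log (X : ℝ)) atTop atTop :=
    Real.tendsto_log_atTop.comp tendsto_natCast_atTop_atTop
  have ha0 : 0 < a := by linarith
  have h := ht.eventually (est a κ ν η ha hκ1 hν hν1 hη)
  filter_upwards [h, eventually_ge_atTop 4, ht.eventually_ge_atTop 4] with X hX hX4 hL4
  obtain ⟨e1, e2, e3, e4, e5, e6, e7⟩ := hX
  set L := Real.log (X : ℝ) with hL
  have hXr : (4 : ℝ) ≤ X := by exact_mod_cast hX4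
  have hX0 : (0 : ℝ) < X := by linarith
  have hL0 : 0 < L := by linarith
  have hkdef : kL ν a X = kk ν a L := rfl
  have hY1 : (L + 2) ^ a ≤ YY a L := Nat.le_ceil _
  have hY0 : (0 : ℝ) < YY a L := lt_of_lt_of_le (by positivity) hY1
  rw [hkdef]
  set k := kk ν a L with hk
  have hk0 : (0 : ℝ) < k := by exact_mod_cast e1
  have hexp : ∀ x : ℝ, (X : ℝ) ^ x = Real.exp (x * L) := by
    intro x
    rw [Real.rpow_def_of_pos hX0, mul_comm]
  refine ⟨e1, ?_, ?_, ?_, ?_, ?_⟩
  · rw [hexp, ← Real.rpow_natCast, Real.rpow_def_of_pos hY0, mul_comm]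
    exact Real.exp_le_exp.2 e2
  · rw [hexp, ← Real.rpow_natCast, Real.rpow_def_of_pos (by norm_num), mul_comm]
    exact Real.exp_le_exp.2 e3
  · have h1 : ((PL a X).card : ℝ) ≤ YY a L := by
      have h2 : (PL a X).card ≤ YY a L := by
        unfold PL
        refine (Finset.card_filter_le _ _).trans ?_
        rw [Nat.card_Icc, ← hL]
        omega
      exact_mod_cast h2
    refine (choose_le k _ _ hY0 e1 h1).trans ?_
    rw [hexp]
    apply Real.exp_le_exp.2
    have h2 : (ν * (1 - 1 / a) + η) * L = ν * L - (ν / a - η) * L := by ring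
    rw [h2]
    linarith
  · intro m hm
    have hLpos : 0 < L ^ (a * (1 - κ)) := Real.rpow_pos_of_pos hL0 _
    have hm0 : (0 : ℝ) < m := lt_of_lt_of_le (by positivity) hm
    have hkm : k ≤ m := by
      have : (k : ℝ) ≤ m := e6.trans hm
      exact_mod_cast this
    refine le_trans ?_ (choose_ge k m e1 hkm)
    rw [hexp, ← Real.rpow_natCast, Real.rpow_def_of_pos (by positivity), mul_comm (Real.log _)]
    apply Real.exp_le_exp.2
    refine e5.trans ?_
    apply mul_le_mul_of_nonneg_left _ hk0.le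
    rw [Real.log_div hm0.ne' hk0.ne']
    have h1 := Real.log_le_log (by positivity) hm
    rw [Real.log_div hLpos.ne' (by norm_num), Real.log_rpow hL0] at h1
    linarith
  · intro d hd1 hd2
    have hd0 : 0 < d := by
      have : (0 : ℝ) < (X : ℝ) / 4 := by positivity
      linarith
    have hlog4 : Real.log 4 ≤ 2 := by
      rw [show (4 : ℝ) = 2 ^ 2 by norm_num, Real.log_pow]
      have := Real.log_two_lt_d9
      push_cast
      linarith
    have hdlow : L - 2 ≤ Real.log d := by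
      have h1 : Real.log ((X : ℝ) / 4) ≤ Real.log d := Real.log_le_log (by positivity) hd1
      rw [Real.log_div hX0.ne' (by norm_num)] at h1
      linarith
    have hdup : Real.log d ≤ L + 1 := by
      have h1 : Real.log d ≤ Real.log (2 * X) := Real.log_le_log hd0 hd2
      rw [Real.log_mul (by norm_num) hX0.ne'] at h1
      have := Real.log_two_lt_d9
      linarith
    exact e7 _ hdlow hdup

end Pool.Agent.H977.LQ
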