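import Pool.Agent.H977.LQ.Reach
import Pool.Agent.H977.LQ.Num
import Pool.Agent.R345.IXEnd

/-!
# Few discriminants for which a large set of small primes reaches few ideal classes
-/

set_option autoImplicit false

namespace Pool.Agent.H977.LQ

open Finset Filter NumberField Pool.Agent.H38R2.CG Pool.Agent.H38R2.CG2
open Pool.Agent.R345.IX (Qz_two floor_two Lone_le)
open scoped Classical

/-- the exceptional discriminants -/
def BadL (a κ ν e : ℝ) (X D : ℕ) : Prop := ∃ (K : Type) (_ : Field K) (_ : NumberField K),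
  Module.finrank ℚ K = 2 ∧ NumberField.discr K = (D : ℤ) ∧
    ∃ (P0 : Finset ℕ) (q : ℕ → nonZeroDivisors (Ideal (𝓞 K))), P0 ⊆ PL a X ∧
      (∀ p ∈ P0, Ideal.absNorm (q p : Ideal (𝓞 K)) = p) ∧
      (Real.log X) ^ (a * (1 - κ)) / 4 ≤ P0.card ∧
      ¬ ((Nat.card (ClassGroup (𝓞 K)) : ℝ) ≤
        (X : ℝ) ^ e * ((classes K P0 q (kL ν a X)).card : ℝ))

theorem PL_mem {a : ℝ} {X p : ℕ} (hp : p ∈ PL a X) :
    p.Prime ∧ p ≠ 2 ∧ p ≤ YY a (Real.log X) := by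
  unfold PL at hp
  rw [Finset.mem_filter, Finset.mem_Icc] at hp
  exact ⟨hp.2, by omega, hp.1.2⟩

/-- the inequality for the class number -/
theorem ineq (hN0 : P_N0) (hN1 : P_N1) (hN3 : P_N3) (h4 : P_N4) (hKF : P_KF)
    (h5b : P_N5b) (hN6 : P_N6) (K : Type) [Field K] [NumberField K] (D X : ℕ)
    (hD : IsFund D) (h2 : Module.finrank ℚ K = 2) (hK : NumberField.discr K = (D : ℤ))
    (hDX : D ≤ 2 * X) (hX : 1 ≤ X) (P0 : Finset ℕ) (hP : ∀ p ∈ P0, p.Prime ∧ p ≠ 2)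
    (q : ℕ → nonZeroDivisors (Ideal (𝓞 K)))
    (hq : ∀ p ∈ P0, Ideal.absNorm (q p : Ideal (𝓞 K)) = p) (k : ℕ) (η A E T N : ℝ)
    (hL : Lone D ≤ (X : ℝ) ^ η) (h2k : (2 : ℝ) ^ k ≤ (X : ℝ) ^ η)
    (hN : (X : ℝ) ^ A ≤ N) (hNc : N = ((P0.card.choose k : ℕ) : ℝ))
    (hT0 : 0 ≤ T) (hT : T ≤ (X : ℝ) ^ E)
    (hS : SD D (P0.powersetCard k) (fun _ => 1) ≤ 2 ^ k * (N + T)) :
    (Nat.card (ClassGroup (𝓞 K)) : ℝ) ≤ ((classes K P0 q k).card : ℝ) * (4 * (X : ℝ) ^ (2 * η) *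
      ((X : ℝ) ^ (1 / 2 - A) + (X : ℝ) ^ (1 / 2 + E - 2 * A))) := by
  have hXr : (1 : ℝ) ≤ X := by exact_mod_cast hX
  have hX0 : (0 : ℝ) < X := by linarith
  have hR := reachQ hN0 hN1 hN3 h4 hKF h5b hN6 K D hD h2 hK P0 hP q hq k
  rw [← hNc] at hR
  set R : ℝ := ((classes K P0 q k).card : ℝ) with hRdef
  set h : ℝ := (Nat.card (ClassGroup (𝓞 K)) : ℝ) with hh
  have hR0 : 0 ≤ R := Nat.cast_nonneg _
  have hXA : 0 < (X : ℝ) ^ A := Real.rpow_pos_of_pos hX0 _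
  have hN0' : 0 < N := lt_of_lt_of_le hXA hN
  have hD1 : 1 < D := hD.1
  have hDr : (1 : ℝ) < D := by exact_mod_cast hD1
  have hDX' : (D : ℝ) ≤ 2 * X := by exact_mod_cast hDX
  have hL0 : 0 ≤ Lone D := (hN3 K D hD h2 hK).1
  have hsD : √(D : ℝ) ≤ 2 * √(X : ℝ) := by
    rw [Real.sqrt_le_left (by positivity), mul_pow, Real.sq_sqrt hX0.le]
    linarith
  have hsXr : √(X : ℝ) = (X : ℝ) ^ (1 / 2 : ℝ) := Real.sqrt_eq_rpow _
  have hsX : 0 < √(X : ℝ) := Real.sqrt_pos.2 hX0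
  have hXη : 0 < (X : ℝ) ^ η := Real.rpow_pos_of_pos hX0 _
  have hNT : 0 ≤ N + T := by linarith
  have hSnn : 0 ≤ SD D (P0.powersetCard k) (fun _ => 1) := Pool.Agent.R345.IX.SD_nonneg D _
  have h1 : h * N ^ 2 ≤ R * (2 * (2 * √(X : ℝ)) * (X : ℝ) ^ η * ((X : ℝ) ^ η * (N + T))) := by
    refine hR.trans ?_
    gcongr
    refine hS.trans ?_
    gcongr
  have h3 : h ≤ R * (4 * ((X : ℝ) ^ η * (X : ℝ) ^ η) * √(X : ℝ) * (1 / N + T / N ^ 2)) := by
    have hN2 : 0 < N ^ 2 := by positivity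
    refine le_of_mul_le_mul_right (h1.trans (le_of_eq ?_)) hN2
    field_simp
    ring
  have h5 : 1 / N ≤ (X : ℝ) ^ (-A) := by
    rw [Real.rpow_neg hX0.le, ← one_div]
    exact one_div_le_one_div_of_le hXA hN
  have h6 : T / N ^ 2 ≤ (X : ℝ) ^ (E - 2 * A) := by
    calc T / N ^ 2 ≤ (X : ℝ) ^ E / ((X : ℝ) ^ A) ^ 2 := by gcongr
      _ = (X : ℝ) ^ (E - 2 * A) := by
        rw [Real.rpow_sub hX0, ← Real.rpow_natCast ((X : ℝ) ^ A), ← Real.rpow_mul hX0.le]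
        congr 2
        push_cast
        ring
  refine h3.trans ?_
  have e1 : (X : ℝ) ^ η * (X : ℝ) ^ η = (X : ℝ) ^ (2 * η) := by
    rw [← Real.rpow_add hX0]; congr 1; ring
  have e2 : (X : ℝ) ^ (1 / 2 - A) = √(X : ℝ) * (X : ℝ) ^ (-A) := by
    rw [hsXr, ← Real.rpow_add hX0]; congr 1
  have e3 : (X : ℝ) ^ (1 / 2 + E - 2 * A) = √(X : ℝ) * (X : ℝ) ^ (E - 2 * A) := by
    rw [hsXr, ← Real.rpow_add hX0]; congr 1; ring
  rw [e1, e2, e3]
  calc R * (4 * (X : ℝ) ^ (2 * η) * √(X : ℝ) * (1 / N + T / N ^ 2))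
      ≤ R * (4 * (X : ℝ) ^ (2 * η) * √(X : ℝ) * ((X : ℝ) ^ (-A) + (X : ℝ) ^ (E - 2 * A))) := by
        gcongr
    _ = _ := by ring

/-- few exceptional discriminants in a dyadic interval -/
theorem count_avg (hN0 : P_N0) (hN1 : P_N1) (hN3 : P_N3) (h4 : P_N4) (hKF : P_KF)
    (h5b : P_N5b) (hN6 : P_N6) (hN3a : P_N3a) (a κ ν : ℝ) (ha : 1 < a)
    (hκ1 : κ < 1 - 1 / a) (hν : 0 < ν) (hν1 : ν ≤ 1) (ε : ℝ)
    (hε : 0 < ε) : ∃ δ : ℝ, 0 < δ ∧ δ ≤ 1 / 2 ∧ ∃ X0 : ℕ, ∀ X ≥ X0,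
    (((Finset.Ioc X (2 * X)).filter (fun D => IsFund D ∧
      BadL a κ ν (max (1 / 2 - ν * (1 - κ - 1 / a)) (2 * (ν * κ)) + ε) X D)).card : ℝ) ≤
        (X : ℝ) ^ (1 - δ) := by
  obtain ⟨C, hC, hLone⟩ := Lone_le hN3a
  set η : ℝ := min (ε / 20) (1 / 4) with hη
  have hηpos : 0 < η := lt_min (by positivity) (by norm_num)
  have hη1 : η ≤ ε / 20 := min_le_left _ _
  have hη2 : η ≤ 1 / 4 := min_le_right _ _
  set γ : ℝ := max (1 / 2 - ν * (1 - κ - 1 / a)) (2 * (ν * κ)) with hγ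
  have hγ1 : 1 / 2 - ν * (1 - κ - 1 / a) ≤ γ := le_max_left _ _
  have hγ2 : 2 * (ν * κ) ≤ γ := le_max_right _ _
  refine ⟨η, hηpos, by linarith, ?_⟩
  rw [← Filter.eventually_atTop]
  have hpar := nums a κ ν η ha hκ1 hν hν1 hηpos
  have hlog1 := ERRh.ev_log (η / 2) (by positivity)
  have hc1 := ERRh.ev_const (η / 2) (by positivity) (max (3072 * 16) (2 * C))
  filter_upwards [hpar, hlog1, hc1, eventually_ge_atTop 1] with X hX hl1 hk1 hX1
  obtain ⟨q1, q2, q3, q4, q5, -⟩ := hX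
  have hXr : (1 : ℝ) ≤ X := by exact_mod_cast hX1
  have hX0 : (0 : ℝ) < X := by linarith
  have hlogX : 0 ≤ Real.log X := Real.log_natCast_nonneg X
  set k := kL ν a X with hk
  set S := (PL a X).powersetCard k with hS
  have hXη : 0 < (X : ℝ) ^ η := Real.rpow_pos_of_pos hX0 _
  have hXh : 0 < (X : ℝ) ^ (η / 2) := Real.rpow_pos_of_pos hX0 _
  have hsX : 0 < √(X : ℝ) := Real.sqrt_pos.2 hX0
  have hhalf : (X : ℝ) ^ (η / 2) * (X : ℝ) ^ (η / 2) = (X : ℝ) ^ η := by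
    rw [← Real.rpow_add hX0]; congr 1; ring
  have hScard : (S.card : ℝ) ≤ (X : ℝ) ^ (ν * (1 - 1 / a) + η) := by
    rw [hS, Finset.card_powersetCard]
    exact q4
  have hSm : ∀ s ∈ S, (∀ p ∈ s, p.Prime) ∧ s.card = k ∧ prodS s ≤ X := by
    intro s hs
    obtain ⟨hs1, hs2⟩ := Finset.mem_powersetCard.1 hs
    refine ⟨fun p hp => (PL_mem (hs1 hp)).1, hs2, ?_⟩
    have h1 : prodS s ≤ (YY a (Real.log X)) ^ k := by
      unfold prodS
      rw [← hs2]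
      exact Finset.prod_le_pow_card _ _ _ fun p hp => (PL_mem (hs1 hp)).2.2
    have h2 : (((YY a (Real.log X)) ^ k : ℕ) : ℝ) ≤ X := by
      push_cast
      refine q2.trans ?_
      calc (X : ℝ) ^ ν ≤ (X : ℝ) ^ (1 : ℝ) := Real.rpow_le_rpow_of_exponent_le hXr hν1
        _ = X := Real.rpow_one _
    have h3 : (YY a (Real.log X)) ^ k ≤ X := by exact_mod_cast h2
    exact h1.trans h3
  have h48 : (4 : ℝ) ^ k ≤ (X : ℝ) ^ η :=
    (pow_le_pow_left₀ (by norm_num) (by norm_num) _).trans q3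
  have h22 : (2 : ℝ) ^ k ≤ (X : ℝ) ^ η :=
    (pow_le_pow_left₀ (by norm_num) (by norm_num) _).trans q3
  -- the exceptional set
  let High : ℕ → Finset ℕ := fun r => (DD 2 r X 1).filter
    (fun D : ℕ => (X : ℝ) ^ (4 * η) * ((S.card : ℝ) ^ 2 / √(X : ℝ)) < off D S)
  have hHigh : ∀ r < Qz 2, ((High r).card : ℝ) * 16 ≤ (X : ℝ) ^ (1 - η) := by
    intro r hr
    rcases Nat.eq_zero_or_pos S.card with h0 | h0
    · have : High r = ∅ := by
        apply Finset.filter_eq_empty_iff.2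
        intro D _
        have hS0 : S = ∅ := Finset.card_eq_zero.1 h0
        rw [hS0]
        unfold off
        simp
      rw [this]
      simp only [Finset.card_empty, Nat.cast_zero, zero_mul]
      positivity
    · have h1 := high_card r X k hr hX1 S hSm ((X : ℝ) ^ (4 * η))
        (Real.rpow_pos_of_pos hX0 _) h0
      have h1' : ((High r).card : ℝ) * 16 ≤
          3072 * 4 ^ k * (1 + Real.log X) * X / (X : ℝ) ^ (4 * η) * 16 :=
        mul_le_mul_of_nonneg_right h1 (by norm_num)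
      refine h1'.trans ?_
      rw [div_mul_eq_mul_div, div_le_iff₀ (Real.rpow_pos_of_pos hX0 _), ← Real.rpow_add hX0]
      have h3072 : (3072 * 16 : ℝ) ≤ (X : ℝ) ^ (η / 2) := (le_max_left _ _).trans hk1
      calc 3072 * 4 ^ k * (1 + Real.log X) * X * 16
          = (3072 * 16) * 4 ^ k * (1 + Real.log X) * X := by ring
        _ ≤ (X : ℝ) ^ (η / 2) * (X : ℝ) ^ η * (X : ℝ) ^ (η / 2) * X := by gcongr
        _ = (X : ℝ) ^ (η / 2 + η + η / 2 + 1) := by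
            rw [Real.rpow_add hX0 _ 1, Real.rpow_one, Real.rpow_add hX0, Real.rpow_add hX0]
        _ ≤ _ := Real.rpow_le_rpow_of_exponent_le hXr (by linarith)
  -- covering
  have hcover : ((Finset.Ioc X (2 * X)).filter (fun D => IsFund D ∧
      BadL a κ ν (γ + ε) X D)) ⊆ (Finset.range 16).biUnion (fun r => High r) := by
    intro D hD
    obtain ⟨hD1, hD2, hD3⟩ := Finset.mem_filter.1 hD
    obtain ⟨hDa, hDb⟩ := Finset.mem_Ioc.1 hD1
    rw [Finset.mem_biUnion]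
    refine ⟨D % 16, Finset.mem_range.2 (Nat.mod_lt _ (by norm_num)), ?_⟩
    have hDD : D ∈ DD 2 (D % 16) X 1 := by
      unfold DD
      rw [Finset.mem_filter, Finset.mem_Ioc, floor_two, Qz_two]
      exact ⟨⟨hDa, hDb⟩, rfl⟩
    by_contra hcon
    have hoff : off D S ≤ (X : ℝ) ^ (4 * η) * ((S.card : ℝ) ^ 2 / √(X : ℝ)) := by
      by_contra h
      exact hcon (Finset.mem_filter.2 ⟨hDD, not_le.1 h⟩)
    obtain ⟨K, i1, i2, g1, g2, P0, q, g3, g4, g5, g6⟩ := hD3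
    apply g6
    have hP0 : ∀ p ∈ P0, p.Prime ∧ p ≠ 2 := fun p hp =>
      ⟨(PL_mem (g3 hp)).1, (PL_mem (g3 hp)).2.1⟩
    have hN := q5 P0.card g5
    have hD1' : 1 < D := hD2.1
    have hDr : (1 : ℝ) < D := by exact_mod_cast hD1'
    have hDX' : (D : ℝ) ≤ 2 * X := by exact_mod_cast hDb
    have hlogD : Real.log D ≤ 1 + Real.log X := by
      have h1 : Real.log D ≤ Real.log (2 * X) := Real.log_le_log (by linarith) hDX'
      rw [Real.log_mul (by norm_num) hX0.ne'] at h1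
      have := Real.log_two_lt_d9
      linarith
    have hL : Lone D ≤ (X : ℝ) ^ η := by
      refine (hLone D hD2).trans ?_
      have h2C : 2 * C ≤ (X : ℝ) ^ (η / 2) := (le_max_right _ _).trans hk1
      have h1 : 1 + Real.log D ≤ 2 * (1 + Real.log X) := by linarith
      calc C * (1 + Real.log D) ≤ C * (2 * (1 + Real.log X)) := by gcongr
        _ = (2 * C) * (1 + Real.log X) := by ring
        _ ≤ (X : ℝ) ^ (η / 2) * (X : ℝ) ^ (η / 2) := by gcongr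
        _ = _ := hhalf
    have hSD := SD_le D k S (P0.powersetCard k) (Finset.powersetCard_mono g3)
      (fun s hs => ⟨(hSm s hs).1, (hSm s hs).2.1⟩)
    rw [Finset.card_powersetCard] at hSD
    have hT : off D S ≤ (X : ℝ) ^ (4 * η + 2 * (ν * (1 - 1 / a) + η) - 1 / 2) := by
      refine hoff.trans ?_
      calc (X : ℝ) ^ (4 * η) * ((S.card : ℝ) ^ 2 / √(X : ℝ))
          ≤ (X : ℝ) ^ (4 * η) * (((X : ℝ) ^ (ν * (1 - 1 / a) + η)) ^ 2 / √(X : ℝ)) := by gcongr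
        _ = _ := by
          rw [Real.sqrt_eq_rpow, ← Real.rpow_natCast ((X : ℝ) ^ (ν * (1 - 1 / a) + η)),
            ← Real.rpow_mul hX0.le, ← Real.rpow_sub hX0, ← Real.rpow_add hX0]
          congr 1
          push_cast
          ring
    have hfin := ineq hN0 hN1 hN3 h4 hKF h5b hN6 K D X hD2 g1 g2 hDb hX1 P0 hP0 q g4 k η
      (ν * (1 - κ - 1 / a) - η) (4 * η + 2 * (ν * (1 - 1 / a) + η) - 1 / 2) (off D S) _ hL h22
      hN rfl (off_nonneg D S fun s hs => (hSm s hs).1) hT hSD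
    refine hfin.trans ?_
    rw [mul_comm]
    refine mul_le_mul_of_nonneg_right ?_ (Nat.cast_nonneg _)
    have t1 : (X : ℝ) ^ (1 / 2 - (ν * (1 - κ - 1 / a) - η)) ≤ (X : ℝ) ^ (γ + 8 * η) :=
      Real.rpow_le_rpow_of_exponent_le hXr (by linarith)
    have t2 : (X : ℝ) ^ (1 / 2 + (4 * η + 2 * (ν * (1 - 1 / a) + η) - 1 / 2) -
        2 * (ν * (1 - κ - 1 / a) - η)) ≤ (X : ℝ) ^ (γ + 8 * η) := by
      apply Real.rpow_le_rpow_of_exponent_le hXr
      have : 1 / 2 + (4 * η + 2 * (ν * (1 - 1 / a) + η) - 1 / 2) -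
        2 * (ν * (1 - κ - 1 / a) - η) = 2 * (ν * κ) + 8 * η := by ring
      rw [this]
      linarith
    have h8 : (8 : ℝ) ≤ (X : ℝ) ^ (η / 2) := by
      have : (3072 * 16 : ℝ) ≤ (X : ℝ) ^ (η / 2) := (le_max_left _ _).trans hk1
      linarith
    calc 4 * (X : ℝ) ^ (2 * η) * ((X : ℝ) ^ (1 / 2 - (ν * (1 - κ - 1 / a) - η)) +
          (X : ℝ) ^ (1 / 2 + (4 * η + 2 * (ν * (1 - 1 / a) + η) - 1 / 2) -
            2 * (ν * (1 - κ - 1 / a) - η)))
        ≤ 4 * (X : ℝ) ^ (2 * η) * ((X : ℝ) ^ (γ + 8 * η) + (X : ℝ) ^ (γ + 8 * η)) := by gcongr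
      _ = 8 * ((X : ℝ) ^ (2 * η) * (X : ℝ) ^ (γ + 8 * η)) := by ring
      _ ≤ (X : ℝ) ^ (η / 2) * ((X : ℝ) ^ (2 * η) * (X : ℝ) ^ (γ + 8 * η)) := by gcongr
      _ = (X : ℝ) ^ (η / 2 + (2 * η + (γ + 8 * η))) := by
          rw [← Real.rpow_add hX0, ← Real.rpow_add hX0]
      _ ≤ _ := Real.rpow_le_rpow_of_exponent_le hXr (by linarith)
  have hfin : ((((Finset.range 16).biUnion (fun r => High r)).card : ℕ) : ℝ) ≤
      (X : ℝ) ^ (1 - η) := by
    have h1 : (((Finset.range 16).biUnion (fun r => High r)).card : ℝ) ≤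
        ∑ r ∈ Finset.range 16, ((High r).card : ℝ) := by
      exact_mod_cast Finset.card_biUnion_le
    refine h1.trans ?_
    have h2 : ∀ r ∈ Finset.range 16, ((High r).card : ℝ) ≤ (X : ℝ) ^ (1 - η) / 16 := by
      intro r hr
      have hr' : r < Qz 2 := by rw [Qz_two]; exact Finset.mem_range.1 hr
      rw [le_div_iff₀ (by norm_num)]
      exact hHigh r hr'
    refine (Finset.sum_le_sum h2).trans ?_
    rw [Finset.sum_const, Finset.card_range, nsmul_eq_mul]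
    push_cast
    linarith
  refine le_trans ?_ hfin
  exact_mod_cast Finset.card_le_card hcover

/-- no exceptional discriminants for short products -/
theorem count_det (hN0 : P_N0) (hN1 : P_N1) (hN3 : P_N3) (h4 : P_N4) (hKF : P_KF)
    (h5b : P_N5b) (hN6 : P_N6) (hN3a : P_N3a) (a κ ν : ℝ) (ha : 1 < a)
    (hκ1 : κ < 1 - 1 / a) (hν : 0 < ν) (hν1 : ν < 1 / 2) (ε : ℝ)
    (hε : 0 < ε) : ∃ X0 : ℕ, ∀ X ≥ X0, ∀ D ∈ Finset.Ioc X (2 * X), IsFund D →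
      ¬ BadL a κ ν (1 / 2 - ν * (1 - κ - 1 / a) + ε) X D := by
  obtain ⟨C, hC, hLone⟩ := Lone_le hN3a
  set η : ℝ := min (ε / 20) (1 / 4) with hη
  have hηpos : 0 < η := lt_min (by positivity) (by norm_num)
  have hη1 : η ≤ ε / 20 := min_le_left _ _
  rw [← Filter.eventually_atTop]
  have hpar := nums a κ ν η ha hκ1 hν (by linarith) hηpos
  have hlog1 := ERRh.ev_log (η / 2) (by positivity)
  have hc1 := ERRh.ev_const (η / 2) (by positivity) (max 8 (2 * C))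
  have hc2 := ERRh.ev_const (1 - 2 * ν) (by linarith) 5
  filter_upwards [hpar, hlog1, hc1, hc2, eventually_ge_atTop 1] with X hX hl1 hk1 hk2 hX1
  obtain ⟨q1, q2, q3, q4, q5, -⟩ := hX
  intro D hD1 hD2 hD3
  obtain ⟨hDa, hDb⟩ := Finset.mem_Ioc.1 hD1
  have hXr : (1 : ℝ) ≤ X := by exact_mod_cast hX1
  have hX0 : (0 : ℝ) < X := by linarith
  have hlogX : 0 ≤ Real.log X := Real.log_natCast_nonneg X
  set k := kL ν a X with hk
  have hXη : 0 < (X : ℝ) ^ η := Real.rpow_pos_of_pos hX0 _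
  have hXh : 0 < (X : ℝ) ^ (η / 2) := Real.rpow_pos_of_pos hX0 _
  have hhalf : (X : ℝ) ^ (η / 2) * (X : ℝ) ^ (η / 2) = (X : ℝ) ^ η := by
    rw [← Real.rpow_add hX0]; congr 1; ring
  have h22 : (2 : ℝ) ^ k ≤ (X : ℝ) ^ η :=
    (pow_le_pow_left₀ (by norm_num) (by norm_num) _).trans q3
  obtain ⟨K, i1, i2, g1, g2, P0, q, g3, g4, g5, g6⟩ := hD3
  apply g6
  have hP0 : ∀ p ∈ P0, p.Prime ∧ p ≠ 2 := fun p hp =>
    ⟨(PL_mem (g3 hp)).1, (PL_mem (g3 hp)).2.1⟩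
  have hN := q5 P0.card g5
  have hD1' : 1 < D := hD2.1
  have hDr : (1 : ℝ) < D := by exact_mod_cast hD1'
  have hDX' : (D : ℝ) ≤ 2 * X := by exact_mod_cast hDb
  have hlogD : Real.log D ≤ 1 + Real.log X := by
    have h1 : Real.log D ≤ Real.log (2 * X) := Real.log_le_log (by linarith) hDX'
    rw [Real.log_mul (by norm_num) hX0.ne'] at h1
    have := Real.log_two_lt_d9
    linarith
  have hL : Lone D ≤ (X : ℝ) ^ η := by
    refine (hLone D hD2).trans ?_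
    have h2C : 2 * C ≤ (X : ℝ) ^ (η / 2) := (le_max_right _ _).trans hk1
    have h1 : 1 + Real.log D ≤ 2 * (1 + Real.log X) := by linarith
    calc C * (1 + Real.log D) ≤ C * (2 * (1 + Real.log X)) := by gcongr
      _ = (2 * C) * (1 + Real.log X) := by ring
      _ ≤ (X : ℝ) ^ (η / 2) * (X : ℝ) ^ (η / 2) := by gcongr
      _ = _ := hhalf
  have hYk : 4 * ((YY a (Real.log X)) ^ k * (YY a (Real.log X)) ^ k) < X := by
    have h1 : (4 : ℝ) * (((YY a (Real.log X) : ℕ) : ℝ) ^ k * ((YY a (Real.log X) : ℕ) : ℝ) ^ k) <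
        X := by
      calc (4 : ℝ) * (((YY a (Real.log X) : ℕ) : ℝ) ^ k * ((YY a (Real.log X) : ℕ) : ℝ) ^ k)
          ≤ 4 * ((X : ℝ) ^ ν * (X : ℝ) ^ ν) := by gcongr
        _ < (X : ℝ) ^ (1 - 2 * ν) * ((X : ℝ) ^ ν * (X : ℝ) ^ ν) := by
            apply mul_lt_mul_of_pos_right _ (by positivity)
            linarith
        _ = X := by
            rw [← Real.rpow_add hX0, ← Real.rpow_add hX0]
            rw [show 1 - 2 * ν + (ν + ν) = 1 by ring, Real.rpow_one]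
    exact_mod_cast h1
  have hSD := Pool.Agent.R345.IY.SD_diag X D k hX1 hDa (P0.powersetCard k)
    ((YY a (Real.log X)) ^ k) hYk (by
      intro s hs
      obtain ⟨hs1, hs2⟩ := Finset.mem_powersetCard.1 hs
      refine ⟨fun p hp => (hP0 p (hs1 hp)).1, hs2, ?_⟩
      unfold prodS
      rw [← hs2]
      exact Finset.prod_le_pow_card _ _ _ fun p hp => (PL_mem (g3 (hs1 hp))).2.2)
  rw [Finset.card_powersetCard] at hSD
  have hfin := ineq hN0 hN1 hN3 h4 hKF h5b hN6 K D X hD2 g1 g2 hDb hX1 P0 hP0 q g4 k η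
    (ν * (1 - κ - 1 / a) - η) (ν * (1 - κ - 1 / a) - η) 0 _ hL h22
    hN rfl le_rfl (by positivity) (by rw [add_zero]; exact hSD)
  refine hfin.trans ?_
  rw [mul_comm]
  refine mul_le_mul_of_nonneg_right ?_ (Nat.cast_nonneg _)
  have h8 : (8 : ℝ) ≤ (X : ℝ) ^ (η / 2) := (le_max_left _ _).trans hk1
  set A := ν * (1 - κ - 1 / a) with hA
  have t1 : (X : ℝ) ^ (1 / 2 - (A - η)) ≤ (X : ℝ) ^ (1 / 2 - A + 8 * η) :=
    Real.rpow_le_rpow_of_exponent_le hXr (by linarith)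
  have t2 : (X : ℝ) ^ (1 / 2 + (A - η) - 2 * (A - η)) ≤ (X : ℝ) ^ (1 / 2 - A + 8 * η) :=
    Real.rpow_le_rpow_of_exponent_le hXr (by linarith)
  calc 4 * (X : ℝ) ^ (2 * η) * ((X : ℝ) ^ (1 / 2 - (A - η)) +
        (X : ℝ) ^ (1 / 2 + (A - η) - 2 * (A - η)))
      ≤ 4 * (X : ℝ) ^ (2 * η) * ((X : ℝ) ^ (1 / 2 - A + 8 * η) +
        (X : ℝ) ^ (1 / 2 - A + 8 * η)) := by gcongr
    _ = 8 * ((X : ℝ) ^ (2 * η) * (X : ℝ) ^ (1 / 2 - A + 8 * η)) := by ring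
    _ ≤ (X : ℝ) ^ (η / 2) * ((X : ℝ) ^ (2 * η) * (X : ℝ) ^ (1 / 2 - A + 8 * η)) := by gcongr
    _ = (X : ℝ) ^ (η / 2 + (2 * η + (1 / 2 - A + 8 * η))) := by
        rw [← Real.rpow_add hX0, ← Real.rpow_add hX0]
    _ ≤ _ := Real.rpow_le_rpow_of_exponent_le hXr (by linarith)

end Pool.Agent.H977.LQ
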