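import Pool.Agent.R345.IXAvg
import Pool.Agent.R345.IYLow

/-!
# The near collision sum without its trivial terms, averaged over the discriminants

The text of `avg_R1` is adapted from `Pool.Agent.R345.IXAvg`.
-/

set_option autoImplicit false

namespace Pool.Agent.H977.LQ

open Finset Filter Pool.Agent.H38R2.CG Pool.Agent.H38R2.CG2 Pool.Agent.R345.IX
open scoped Classical

/-- the sum without the trivial solution -/
noncomputable def R1 (D n : ℕ) : ℝ := Rsum D n - if IsSquare n then 1 else 0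

theorem R1_nonneg (D n : ℕ) (hn : 1 ≤ n) : 0 ≤ R1 D n := by
  have e1 : Rsum D n = ∑ u ∈ Finset.Icc 1 (4 * n), ∑ v ∈ Finset.Icc (-((4 * n : ℕ) : ℤ))
      ((4 * n : ℕ) : ℤ), TB1h.T D n u v := by
    unfold Rsum TB1h.T
    push_cast
    rfl
  unfold R1
  by_cases h : IsSquare n
  · rw [if_pos h, sub_nonneg, e1]
    obtain ⟨w, hw⟩ := h
    have hw1 : 1 ≤ w := by
      rcases Nat.eq_zero_or_pos w with h0 | h0
      · subst h0; omega
      · exact h0
    have h1 : ∀ u ∈ Finset.Icc 1 (4 * n), 0 ≤ ∑ v ∈ Finset.Icc (-((4 * n : ℕ) : ℤ))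
        ((4 * n : ℕ) : ℤ), TB1h.T D n u v := fun u _ =>
      Finset.sum_nonneg fun v _ => TB1h.T_nonneg D n u v
    have hmem : 2 * w ∈ Finset.Icc 1 (4 * n) := by
      rw [Finset.mem_Icc]
      constructor
      · omega
      · rw [hw]; nlinarith
    refine le_trans ?_ (Finset.single_le_sum h1 hmem)
    have hmem0 : (0 : ℤ) ∈ Finset.Icc (-((4 * n : ℕ) : ℤ)) ((4 * n : ℕ) : ℤ) := by
      rw [Finset.mem_Icc]
      constructor <;> omega
    refine le_trans ?_ (Finset.single_le_sum (fun v _ => TB1h.T_nonneg D n (2 * w) v) hmem0)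
    unfold TB1h.T
    rw [if_pos (by rw [hw]; push_cast; ring)]
    have hw0 : (2 : ℝ) * w ≠ 0 := by
      have : (0 : ℝ) < w := by exact_mod_cast hw1
      positivity
    have h2 : (((2 * w : ℕ) : ℝ) + ((0 : ℤ) : ℝ) * √(D : ℝ)) /
        (((2 * w : ℕ) : ℝ) - ((0 : ℤ) : ℝ) * √(D : ℝ)) = 1 := by
      push_cast
      rw [zero_mul, add_zero, sub_zero, div_self hw0]
    rw [h2, Real.log_one]
    unfold phi
    simp
  · rw [if_neg h, sub_zero, e1]
    exact Finset.sum_nonneg fun u _ => Finset.sum_nonneg fun v _ => TB1h.T_nonneg D n u v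

/-- the sum over the discriminants for one pair of sets of primes -/
theorem avg_R1 (r X k : ℕ) (hr : r < Qz 2) (hX : 1 ≤ X) (s t : Finset ℕ) (hs : ∀ p ∈ s, p.Prime)
    (ht : ∀ p ∈ t, p.Prime) (hsk : (s ∩ t).card ≤ k) (hsX : prodS s ≤ X) (htX : prodS t ≤ X) :
    ∑ D ∈ DD 2 r X 1, R1 D (prodS s * prodS t) ≤ 3072 * 4 ^ k * √(X : ℝ) * (1 + Real.log X) := by
  have hs1 : 1 ≤ prodS s := Finset.prod_pos fun p hp => (hs p hp).pos
  have ht1 : 1 ≤ prodS t := Finset.prod_pos fun p hp => (ht p hp).pos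
  set n := prodS s * prodS t with hn
  have hn1 : 1 ≤ n := Nat.mul_pos hs1 ht1
  have hnX : n ≤ X * X := Nat.mul_le_mul hsX htX
  have hXr : (1 : ℝ) ≤ X := by exact_mod_cast hX
  have hX0 : (0 : ℝ) < X := by linarith
  have hlogX : 0 ≤ Real.log X := Real.log_natCast_nonneg X
  have hnr : (1 : ℝ) ≤ n := by exact_mod_cast hn1
  have hn0 : (0 : ℝ) < n := by linarith
  have hsn : 0 < √(n : ℝ) := Real.sqrt_pos.2 hn0
  have hsX' : 0 < √(X : ℝ) := Real.sqrt_pos.2 hX0
  have hTB1 := T_TB1 T_TB1a 2 r X n 1 hr one_pos le_rfl hX hn1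
  have hsplit : ∑ D ∈ DD 2 r X 1, R1 D n = ∑ D ∈ DD 2 r X 1, Rsum D n -
      (if IsSquare n then ((DD 2 r X 1).card : ℝ) else 0) := by
    unfold R1
    rw [Finset.sum_sub_distrib]
    congr 1
    split_ifs <;> simp
  rw [hsplit]
  refine (sub_le_iff_le_add'.2 hTB1).trans ?_
  set V : ℕ := ⌊2 * √((n : ℝ) / X)⌋₊ with hV
  have hQ : ((Qz 2 : ℕ) : ℝ) = 16 := by rw [Qz_two]; norm_num
  obtain ⟨-, -, hom, -⟩ := T_TB2 X 1 hX one_pos le_rfl n hn0
  have hVle : (V : ℝ) ≤ 2 * √((n : ℝ) / X) := Nat.floor_le (by positivity)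
  have hsq : √((n : ℝ) / X) = √(n : ℝ) / √(X : ℝ) := Real.sqrt_div hn0.le _
  have hnX' : √(n : ℝ) ≤ X := by
    rw [Real.sqrt_le_left hX0.le]
    have : ((n : ℕ) : ℝ) ≤ ((X * X : ℕ) : ℝ) := by exact_mod_cast hnX
    push_cast at this
    nlinarith
  have hXX : √(X : ℝ) * √(X : ℝ) = X := Real.mul_self_sqrt hX0.le
  have hV1 : (V : ℝ) ≤ 2 * √(X : ℝ) := by
    refine hVle.trans ?_
    rw [hsq]
    have : √(n : ℝ) / √(X : ℝ) ≤ √(X : ℝ) := by
      rw [div_le_iff₀ hsX', hXX]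
      exact hnX'
    linarith
  have hV2 : (V : ℝ) * (X / (4 * √(n : ℝ))) ≤ √(X : ℝ) / 2 := by
    calc (V : ℝ) * (X / (4 * √(n : ℝ))) ≤ (2 * √((n : ℝ) / X)) * (X / (4 * √(n : ℝ))) := by gcongr
      _ = √(X : ℝ) / 2 := by
        rw [hsq]
        have h : 2 * (√(n : ℝ) / √(X : ℝ)) * ((√(X : ℝ) * √(X : ℝ)) / (4 * √(n : ℝ))) =
            √(X : ℝ) / 2 := by
          field_simp
          norm_num
        rw [hXX] at h
        exact h
  have hsum : ∑ v ∈ Finset.Icc 1 V, (rho 2 r n v : ℝ) * (om X 1 v n / Qz 2 + 1) ≤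
      (∑ v ∈ Finset.Icc 1 V, (rho 2 r n v : ℝ)) * (X / (4 * √(n : ℝ)) / 16 + 1) := by
    rw [Finset.sum_mul]
    refine Finset.sum_le_sum fun v _ => ?_
    refine mul_le_mul_of_nonneg_left ?_ (Nat.cast_nonneg _)
    have := hom v
    rw [hQ]
    rw [one_mul] at this
    have h3 : om X 1 v n / 16 ≤ X / (4 * √(n : ℝ)) / 16 := by
      exact div_le_div_of_nonneg_right this (by norm_num)
    linarith
  have hvs := ERRh.v_sum T_TB3a 2 r s t hs ht V
  rw [hQ] at hvs
  have h4 : (4 : ℝ) ^ ((s ∩ t).card) ≤ 4 ^ k := pow_le_pow_right₀ (by norm_num) hsk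
  have hlogV : Real.log V ≤ 1 + Real.log X := by
    rcases Nat.eq_zero_or_pos V with hV0 | hVpos
    · rw [hV0, Nat.cast_zero, Real.log_zero]
      linarith
    · have hVr : (0 : ℝ) < V := by exact_mod_cast hVpos
      have h5 : Real.log V ≤ Real.log (2 * √(X : ℝ)) := Real.log_le_log hVr hV1
      rw [Real.log_mul (by norm_num) hsX'.ne', Real.log_sqrt hX0.le] at h5
      have := Real.log_two_lt_d9
      linarith
  have hlogV0 : 0 ≤ Real.log V := Real.log_natCast_nonneg V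
  have hc0 : 0 ≤ X / (4 * √(n : ℝ)) / 16 + 1 := by positivity
  calc 2 * ∑ v ∈ Finset.Icc 1 V, (rho 2 r n v : ℝ) * (om X 1 v n / Qz 2 + 1)
      ≤ 2 * ((16 * 16 * (4 ^ k * (V * (2 + Real.log X)))) * (X / (4 * √(n : ℝ)) / 16 + 1)) := by
        refine mul_le_mul_of_nonneg_left (hsum.trans ?_) (by norm_num)
        refine mul_le_mul_of_nonneg_right (hvs.trans ?_) hc0
        have h6 : (V : ℝ) * (1 + Real.log V) ≤ V * (2 + Real.log X) := by
          apply mul_le_mul_of_nonneg_left _ (Nat.cast_nonneg _)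
          linarith
        have h7 : (0 : ℝ) ≤ V * (1 + Real.log V) := by positivity
        gcongr
    _ = 512 * 4 ^ k * (2 + Real.log X) * (V * (X / (4 * √(n : ℝ))) / 16 + V) := by ring
    _ ≤ 512 * 4 ^ k * (2 + Real.log X) * (√(X : ℝ) / 2 / 16 + 2 * √(X : ℝ)) := by
        gcongr
    _ ≤ 3072 * 4 ^ k * √(X : ℝ) * (1 + Real.log X) := by
        have h8 : (0 : ℝ) < 4 ^ k := by positivity
        have h9 : 0 ≤ 4 ^ k * √(X : ℝ) := by positivity
        have h10 : 512 * 4 ^ k * (2 + Real.log X) * (√(X : ℝ) / 2 / 16 + 2 * √(X : ℝ)) =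
            (4 ^ k * √(X : ℝ)) * ((2 + Real.log X) * (512 * (65 / 32))) := by ring
        have h11 : 3072 * 4 ^ k * √(X : ℝ) * (1 + Real.log X) =
            (4 ^ k * √(X : ℝ)) * ((1 + Real.log X) * 3072) := by ring
        rw [h10, h11]
        apply mul_le_mul_of_nonneg_left _ h9
        nlinarith

/-- the sum over pairs, without the trivial solutions -/
noncomputable def off (D : ℕ) (S : Finset (Finset ℕ)) : ℝ :=
  ∑ s ∈ S, ∑ t ∈ S, R1 D (prodS s * prodS t)

theorem R1_pair (D : ℕ) (s t : Finset ℕ) (hs : ∀ p ∈ s, p.Prime) (ht : ∀ p ∈ t, p.Prime) :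
    0 ≤ R1 D (prodS s * prodS t) :=
  R1_nonneg D _ (Nat.mul_pos (Finset.prod_pos fun p hp => (hs p hp).pos)
    (Finset.prod_pos fun p hp => (ht p hp).pos))

theorem off_mono (D : ℕ) (S S' : Finset (Finset ℕ)) (h : S' ⊆ S)
    (hS : ∀ s ∈ S, ∀ p ∈ s, p.Prime) : off D S' ≤ off D S := by
  unfold off
  refine (Finset.sum_le_sum fun s hs => ?_).trans (Finset.sum_le_sum_of_subset_of_nonneg h
    fun s hs _ => Finset.sum_nonneg fun t ht => R1_pair D s t (hS s hs) (hS t ht))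
  exact Finset.sum_le_sum_of_subset_of_nonneg h
    fun t ht _ => R1_pair D s t (hS s (h hs)) (hS t ht)

theorem off_nonneg (D : ℕ) (S : Finset (Finset ℕ)) (hS : ∀ s ∈ S, ∀ p ∈ s, p.Prime) :
    0 ≤ off D S :=
  Finset.sum_nonneg fun s hs => Finset.sum_nonneg fun t ht => R1_pair D s t (hS s hs) (hS t ht)

theorem avg_off (r X k : ℕ) (hr : r < Qz 2) (hX : 1 ≤ X) (S : Finset (Finset ℕ))
    (hS : ∀ s ∈ S, (∀ p ∈ s, p.Prime) ∧ s.card = k ∧ prodS s ≤ X) :
    ∑ D ∈ DD 2 r X 1, off D S ≤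
      (S.card : ℝ) ^ 2 * (3072 * 4 ^ k * √(X : ℝ) * (1 + Real.log X)) := by
  have e1 : ∑ D ∈ DD 2 r X 1, off D S =
      ∑ s ∈ S, ∑ t ∈ S, ∑ D ∈ DD 2 r X 1, R1 D (prodS s * prodS t) := by
    unfold off
    rw [Finset.sum_comm]
    refine Finset.sum_congr rfl fun s _ => ?_
    rw [Finset.sum_comm]
  rw [e1]
  have h2 : ∀ s ∈ S, ∀ t ∈ S, ∑ D ∈ DD 2 r X 1, R1 D (prodS s * prodS t) ≤
      3072 * 4 ^ k * √(X : ℝ) * (1 + Real.log X) := by
    intro s hs t ht
    have hk : (s ∩ t).card ≤ k := by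
      rw [← (hS s hs).2.1]
      exact Finset.card_le_card Finset.inter_subset_left
    exact avg_R1 r X k hr hX s t (hS s hs).1 (hS t ht).1 hk (hS s hs).2.2 (hS t ht).2.2
  refine (Finset.sum_le_sum fun s hs => Finset.sum_le_sum fun t ht => h2 s hs t ht).trans ?_
  rw [Finset.sum_const, Finset.sum_const, nsmul_eq_mul, nsmul_eq_mul]
  exact le_of_eq (by ring)

/-- number of the discriminants with many nontrivial near collisions -/
theorem high_card (r X k : ℕ) (hr : r < Qz 2) (hX : 1 ≤ X) (S : Finset (Finset ℕ))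
    (hS : ∀ s ∈ S, (∀ p ∈ s, p.Prime) ∧ s.card = k ∧ prodS s ≤ X) (T : ℝ) (hT : 0 < T)
    (hc : 0 < S.card) :
    (((DD 2 r X 1).filter (fun D => T * ((S.card : ℝ) ^ 2 / √(X : ℝ)) < off D S)).card : ℝ) ≤
      3072 * 4 ^ k * (1 + Real.log X) * X / T := by
  have hXr : (1 : ℝ) ≤ X := by exact_mod_cast hX
  have hX0 : (0 : ℝ) < X := by linarith
  have hsX : 0 < √(X : ℝ) := Real.sqrt_pos.2 hX0
  have hXX : √(X : ℝ) * √(X : ℝ) = X := Real.mul_self_sqrt hX0.le
  have hM : (0 : ℝ) < S.card := by exact_mod_cast hc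
  set M : ℝ := (S.card : ℝ) with hMdef
  set Bd := (DD 2 r X 1).filter (fun D => T * (M ^ 2 / √(X : ℝ)) < off D S) with hBd
  have h1 := avg_off r X k hr hX S hS
  have h2 : (Bd.card : ℝ) * (T * (M ^ 2 / √(X : ℝ))) ≤ ∑ D ∈ DD 2 r X 1, off D S := by
    calc (Bd.card : ℝ) * (T * (M ^ 2 / √(X : ℝ))) = ∑ D ∈ Bd, (T * (M ^ 2 / √(X : ℝ))) := by
          rw [Finset.sum_const, nsmul_eq_mul]
      _ ≤ ∑ D ∈ Bd, off D S :=
          Finset.sum_le_sum fun D hD => (Finset.mem_filter.1 hD).2.le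
      _ ≤ _ := Finset.sum_le_sum_of_subset_of_nonneg (Finset.filter_subset _ _)
          fun D _ _ => off_nonneg D S fun s hs => (hS s hs).1
  rw [le_div_iff₀ hT]
  have hA0 : 0 < M ^ 2 / √(X : ℝ) := by positivity
  have h4 : ((Bd.card : ℝ) * T) * (M ^ 2 / √(X : ℝ)) ≤
      (3072 * 4 ^ k * (1 + Real.log X) * X) * (M ^ 2 / √(X : ℝ)) := by
    calc (Bd.card : ℝ) * T * (M ^ 2 / √(X : ℝ)) = (Bd.card : ℝ) * (T * (M ^ 2 / √(X : ℝ))) := by ring
      _ ≤ M ^ 2 * (3072 * 4 ^ k * √(X : ℝ) * (1 + Real.log X)) := h2.trans h1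
      _ = (3072 * 4 ^ k * (1 + Real.log X) * (√(X : ℝ) * √(X : ℝ))) * (M ^ 2 / √(X : ℝ)) := by
          field_simp
      _ = _ := by rw [hXX]
  exact le_of_mul_le_mul_right h4 hA0

/-- the near collision sum of a subfamily -/
theorem SD_le (D k : ℕ) (S S' : Finset (Finset ℕ)) (h : S' ⊆ S)
    (hS : ∀ s ∈ S, (∀ p ∈ s, p.Prime) ∧ s.card = k) :
    SD D S' (fun _ => 1) ≤ 2 ^ k * (S'.card + off D S) := by
  have h1 : SD D S' (fun _ => 1) ≤ 2 ^ k * (S'.card + off D S') := by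
    unfold SD
    have h2 : ∀ s ∈ S', ∀ t ∈ S', (1 : ℝ) * 1 * 2 ^ ((s ∩ t).card) * Rsum D (prodS s * prodS t) ≤
        2 ^ k * ((if s = t then 1 else 0) + R1 D (prodS s * prodS t)) := by
      intro s hs t ht
      have h3 : (2 : ℝ) ^ ((s ∩ t).card) ≤ 2 ^ k := by
        apply pow_le_pow_right₀ (by norm_num)
        rw [← (hS s (h hs)).2]
        exact Finset.card_le_card Finset.inter_subset_left
      have h4 : 0 ≤ R1 D (prodS s * prodS t) := R1_pair D s t (hS s (h hs)).1 (hS t (h ht)).1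
      have h5 : Rsum D (prodS s * prodS t) ≤
          (if s = t then 1 else 0) + R1 D (prodS s * prodS t) := by
        unfold R1
        by_cases hst : s = t
        · rw [if_pos hst]
          split_ifs <;> linarith
        · rw [if_neg hst, if_neg]
          · linarith
          · intro hsq
            exact hst (ERRh.isSquare_imp_eq (hS s (h hs)).1 (hS t (h ht)).1 hsq)
      have h6 : 0 ≤ (if s = t then (1 : ℝ) else 0) + R1 D (prodS s * prodS t) := by
        split_ifs <;> linarith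
      calc (1 : ℝ) * 1 * 2 ^ ((s ∩ t).card) * Rsum D (prodS s * prodS t)
          = 2 ^ ((s ∩ t).card) * Rsum D (prodS s * prodS t) := by ring
        _ ≤ 2 ^ ((s ∩ t).card) * ((if s = t then 1 else 0) + R1 D (prodS s * prodS t)) :=
            mul_le_mul_of_nonneg_left h5 (by positivity)
        _ ≤ _ := mul_le_mul_of_nonneg_right h3 h6
    refine (Finset.sum_le_sum fun s hs => Finset.sum_le_sum fun t ht => h2 s hs t ht).trans ?_
    apply le_of_eq
    unfold off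
    rw [Finset.card_eq_sum_ones]
    push_cast
    rw [← Finset.sum_add_distrib, Finset.mul_sum]
    refine Finset.sum_congr rfl fun s hs => ?_
    rw [← Finset.mul_sum, Finset.sum_add_distrib, Finset.sum_ite_eq, if_pos hs]
  refine h1.trans ?_
  have h2 := off_mono D S S' h (fun s hs => (hS s hs).1)
  gcongr

end Pool.Agent.H977.LQ
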