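import Pool.Agent.H977.LQ.Fin

/-!
# Few radicands for which a large set of small primes reaches few ideal classes
-/

set_option autoImplicit false

namespace Pool.Agent.H977.LQ

open Finset Filter NumberField Pool.Agent.H38R2.CG Pool.Agent.H38R2.CG2
open Pool.Agent.R345.IX (Dof isFund_Dof dyadic)
open scoped Classical

/-- the property of the radicand -/
def GoodL (a κ e : ℝ) (d : ℕ) : Prop :=
  ∀ (K : Type) [Field K] [NumberField K], Module.finrank ℚ K = 2 → (∃ x : K, x ^ 2 = (d : K)) →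
    ∃ k : ℕ, 1 ≤ k ∧ (k : ℝ) ≤ Real.log d / Real.log (Real.log d) ∧
      ∀ (P0 : Finset ℕ) (q : ℕ → nonZeroDivisors (Ideal (𝓞 K))),
        (∀ p ∈ P0, p.Prime ∧ (p : ℝ) ≤ (Real.log d) ^ a) →
        (∀ p ∈ P0, Ideal.absNorm (q p : Ideal (𝓞 K)) = p) →
        ((Real.log d) ^ a) ^ (1 - κ) ≤ P0.card →
        (Nat.card (ClassGroup (𝓞 K)) : ℝ) ≤ (d : ℝ) ^ e * ((classes K P0 q k).card : ℝ)

/-- few exceptional discriminants give few exceptional radicands -/
theorem transfer (a κ ν β ε : ℝ) (ha : 1 < a) (hκ1 : κ < 1 - 1 / a) (hν : 0 < ν)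
    (hν1 : ν ≤ 1) (hβ : 0 ≤ β) (hε : 0 < ε) (δ : ℝ) (hδ : 0 < δ) (hδ2 : δ ≤ 1 / 2) (X0 : ℕ)
    (hX0 : ∀ X ≥ X0, (((Finset.Ioc X (2 * X)).filter (fun D => IsFund D ∧
      BadL a κ ν (β + ε / 2) X D)).card : ℝ) ≤ (X : ℝ) ^ (1 - δ)) :
    ∃ C : ℝ, 0 < C ∧ ∀ X : ℕ, (((Finset.Icc 2 X).filter (fun d => Squarefree d ∧
      ¬ GoodL a κ (β + ε) d)).card : ℝ) ≤ C * (X : ℝ) ^ (1 - δ) := by
  have h_P_N0d : P_N0d := T_N0d
  obtain ⟨X1, hX1⟩ := Filter.eventually_atTop.1 (nums a κ ν 1 ha hκ1 hν hν1 one_pos)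
  obtain ⟨X2, hX2⟩ := Filter.eventually_atTop.1
    (ERRh.ev_const (ε / 2) (by positivity) ((4 : ℝ) ^ (β + ε / 2)))
  -- a bad radicand gives a bad discriminant
  have key : ∀ Y : ℕ, X0 ≤ Y → X1 ≤ Y → X2 ≤ Y → 1 ≤ Y → ∀ d : ℕ, Y < d → d ≤ 2 * Y →
      Squarefree d → ¬ GoodL a κ (β + ε) d → ∀ X : ℕ, X1 ≤ X → X ≤ 4 * d → d ≤ 2 * X →
      X ≤ 4 * Y →
      IsFund (Dof d) ∧ BadL a κ ν (β + ε / 2) X (Dof d) := by
    intro Y _ _ hY2 hY1 d hd1 hd2 hsq hbad X hXX1 hX4 hdX hX4Y
    have hd : 1 < d := by omega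
    refine ⟨isFund_Dof hd hsq, ?_⟩
    unfold GoodL at hbad
    push Not at hbad
    obtain ⟨K, i1, i2, h2, hx, hlt⟩ := hbad
    obtain ⟨hk1, -, -, -, -, hfin⟩ := hX1 X hXX1
    obtain ⟨g1, g2, g3⟩ := hfin d (by
      have : (X : ℝ) ≤ 4 * d := by exact_mod_cast hX4
      linarith) (by exact_mod_cast hdX)
    obtain ⟨P0, q, c1, c2, c3, c4⟩ := hlt (kL ν a X) hk1 g3
    refine ⟨K, i1, i2, h2, ?_, P0.filter (fun p => p ≠ 2), q, ?_, ?_, ?_, ?_⟩
    · rw [h_P_N0d K d hd hsq h2 hx]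
      unfold Dof
      split_ifs <;> push_cast <;> rfl
    · intro p hp
      obtain ⟨hp1, hp2⟩ := Finset.mem_filter.1 hp
      obtain ⟨hp3, hp4⟩ := c1 p hp1
      unfold PL
      rw [Finset.mem_filter, Finset.mem_Icc]
      have h5 : p ≤ YY a (Real.log X) := by
        have : (p : ℝ) ≤ (YY a (Real.log X) : ℕ) := hp4.trans g1
        exact_mod_cast this
      have := hp3.two_le
      exact ⟨⟨by omega, h5⟩, hp3⟩
    · intro p hp
      exact c2 p (Finset.mem_filter.1 hp).1
    · have h5 : P0.card ≤ (P0.filter (fun p => p ≠ 2)).card + 1 := by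
        have h6 : P0 ⊆ insert 2 (P0.filter (fun p => p ≠ 2)) := by
          intro p hp
          rw [Finset.mem_insert, Finset.mem_filter]
          by_cases h : p = 2
          · exact Or.inl h
          · exact Or.inr ⟨hp, h⟩
        exact (Finset.card_le_card h6).trans (Finset.card_insert_le _ _)
      have h7 : (P0.card : ℝ) ≤ (P0.filter (fun p => p ≠ 2)).card + 1 := by exact_mod_cast h5
      linarith
    · intro hle
      refine absurd hle (not_le.2 (lt_of_le_of_lt ?_ c4))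
      have hdr : (0 : ℝ) < d := by
        have : 0 < d := by omega
        exact_mod_cast this
      have hcard : ((classes K (P0.filter (fun p => p ≠ 2)) q (kL ν a X)).card : ℝ) ≤
          ((classes K P0 q (kL ν a X)).card : ℝ) := by
        have : classes K (P0.filter (fun p => p ≠ 2)) q (kL ν a X) ⊆
            classes K P0 q (kL ν a X) :=
          Finset.image_subset_image (Finset.powersetCard_mono (Finset.filter_subset _ _))
        exact_mod_cast Finset.card_le_card this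
      have hpow : (X : ℝ) ^ (β + ε / 2) ≤ (d : ℝ) ^ (β + ε) := by
        have h4d : (4 : ℝ) ^ (β + ε / 2) ≤ (d : ℝ) ^ (ε / 2) := hX2 d (by omega)
        calc (X : ℝ) ^ (β + ε / 2) ≤ (4 * (d : ℝ)) ^ (β + ε / 2) := by
              apply Real.rpow_le_rpow (Nat.cast_nonneg _) _ (by positivity)
              exact_mod_cast hX4
          _ = (4 : ℝ) ^ (β + ε / 2) * (d : ℝ) ^ (β + ε / 2) :=
              Real.mul_rpow (by norm_num) hdr.le
          _ ≤ (d : ℝ) ^ (ε / 2) * (d : ℝ) ^ (β + ε / 2) := by gcongr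
          _ = (d : ℝ) ^ (β + ε) := by
              rw [← Real.rpow_add hdr]
              congr 1
              ring
      exact mul_le_mul hpow hcard (Nat.cast_nonneg _) (by positivity)
  have hdy := dyadic (fun S => (S.filter (fun d => Squarefree d ∧ ¬ GoodL a κ (β + ε) d)).card)
    (fun d => Squarefree d ∧ ¬ GoodL a κ (β + ε) d) (fun S => by congr) δ hδ hδ2
    (max (max X0 X1) (max X2 1)) (by
      intro Y hY
      have hY0 : X0 ≤ Y := le_trans (le_trans (le_max_left _ _) (le_max_left _ _)) hY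
      have hY1 : X1 ≤ Y := le_trans (le_trans (le_max_right _ _) (le_max_left _ _)) hY
      have hY2 : X2 ≤ Y := le_trans (le_trans (le_max_left _ _) (le_max_right _ _)) hY
      have hY3 : 1 ≤ Y := le_trans (le_trans (le_max_right _ _) (le_max_right _ _)) hY
      have hYr : (0 : ℝ) < Y := by exact_mod_cast hY3
      set S := (Finset.Ioc Y (2 * Y)).filter (fun d => Squarefree d ∧ ¬ GoodL a κ (β + ε) d) with hS
      set A := (Finset.Ioc Y (2 * Y)).filter
        (fun D => IsFund D ∧ BadL a κ ν (β + ε / 2) Y D) with hA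
      set B := (Finset.Ioc (4 * Y) (2 * (4 * Y))).filter
        (fun D => IsFund D ∧ BadL a κ ν (β + ε / 2) (4 * Y) D) with hB
      have hA' := hX0 Y hY0
      have hB' := hX0 (4 * Y) (by omega)
      have hinj : S.card ≤ (A ∪ B).card := by
        refine Finset.card_le_card_of_injOn Dof ?_ ?_
        · intro d hd
          rw [Finset.mem_coe] at hd ⊢
          obtain ⟨h1, h2, h3⟩ := Finset.mem_filter.1 hd
          obtain ⟨h4, h5⟩ := Finset.mem_Ioc.1 h1
          rw [Finset.mem_union]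
          by_cases h : d % 4 = 1
          · left
            have hDof : Dof d = d := by unfold Dof; rw [if_pos h]
            have hk := key Y hY0 hY1 hY2 hY3 d h4 h5 h2 h3 Y hY1 (by omega) (by omega) (by omega)
            rw [hA, Finset.mem_filter, Finset.mem_Ioc]
            exact ⟨by rw [hDof]; exact ⟨h4, h5⟩, hk⟩
          · right
            have hDof : Dof d = 4 * d := by unfold Dof; rw [if_neg h]
            have hk := key Y hY0 hY1 hY2 hY3 d h4 h5 h2 h3 (4 * Y) (by omega) (by omega)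
              (by omega) (by omega)
            rw [hB, Finset.mem_filter, Finset.mem_Ioc]
            exact ⟨by rw [hDof]; omega, hk⟩
        · intro d _ d' _ hdd
          unfold Dof at hdd
          split_ifs at hdd <;> omega
      have h1 : (S.card : ℝ) ≤ A.card + B.card := by
        exact_mod_cast hinj.trans (Finset.card_union_le _ _)
      have h4Y : (((4 * Y : ℕ) : ℝ)) ^ (1 - δ) ≤ 4 * (Y : ℝ) ^ (1 - δ) := by
        push_cast
        rw [Real.mul_rpow (by norm_num) hYr.le]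
        apply mul_le_mul_of_nonneg_right _ (by positivity)
        calc (4 : ℝ) ^ (1 - δ) ≤ (4 : ℝ) ^ (1 : ℝ) :=
              Real.rpow_le_rpow_of_exponent_le (by norm_num) (by linarith)
          _ = 4 := Real.rpow_one 4
      show ((S.card : ℕ) : ℝ) ≤ 5 * (Y : ℝ) ^ (1 - δ)
      linarith)
  exact hdy

/-- the exponent -/
noncomputable def beta (a κ : ℝ) : ℝ :=
  min ((κ + 1 / a) / 2) (max (κ / (1 - 1 / a + κ)) (κ + 1 / a - 1 / 2))

theorem beta_nonneg (a κ : ℝ) (ha : 1 < a) (hκ : 0 ≤ κ) : 0 ≤ beta a κ := by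
  have ha0 : 0 < a := by linarith
  have h1 : 1 / a < 1 := by
    rw [div_lt_iff₀ ha0]
    linarith
  have h2 : 0 < 1 / a := by positivity
  unfold beta
  refine le_min (by positivity) (le_trans ?_ (le_max_left _ _))
  exact div_nonneg hκ (by linarith)

/-- **Main theorem.** -/
theorem main (a κ ε : ℝ) (ha : 1 < a) (hκ : 0 ≤ κ) (hκ1 : κ < 1 - 1 / a) (hε : 0 < ε) :
    ∃ δ C : ℝ, 0 < δ ∧ 0 < C ∧
    ∀ X : ℕ, (((Finset.Icc 2 X).filter (fun d => Squarefree d ∧
      ¬ GoodL a κ (beta a κ + ε) d)).card : ℝ) ≤ C * (X : ℝ) ^ (1 - δ) := by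
  have h_P_N0 : P_N0 := T_N0
  have h_P_SPL : P_SPL := T_SPL h_P_N0
  have h_P_N1 : P_N1 := T_N1 h_P_SPL
  have h_P_N2 : P_N2 := T_N2 h_P_SPL
  have h_P_KR : P_KR := T_KR
  have h_P_PV : P_PV := T_PV
  have h_P_N3a : P_N3a := T_N3a h_P_KR h_P_PV
  have h_P_N3b : P_N3b := T_N3b h_P_KR h_P_PV h_P_N3a
  have h_P_N3 : P_N3 := T_N3 h_P_N2 h_P_N3b
  have h_P_N4a : P_N4a := T_N4a
  have h_P_N4b : P_N4b := T_N4b
  have h_P_N4 : P_N4 := T_N4 h_P_N4a h_P_N4b
  have h_P_KF : P_KF := T_KF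
  have h_P_N5b : P_N5b := T_N5b h_P_KF h_P_N4
  have h_P_N6 : P_N6 := T_N6 h_P_KF
  have ha0 : 0 < a := by linarith
  have hb : 0 < 1 / a := by positivity
  have hβ0 := beta_nonneg a κ ha hκ
  rcases le_total ((κ + 1 / a) / 2) (max (κ / (1 - 1 / a + κ)) (κ + 1 / a - 1 / 2)) with hc | hc
  · -- short products
    have hβ : beta a κ = (κ + 1 / a) / 2 := min_eq_left hc
    set ν : ℝ := 1 / 2 - min (ε / 4) (1 / 4) with hν
    have hm1 : min (ε / 4) (1 / 4 : ℝ) ≤ ε / 4 := min_le_left _ _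
    have hm2 : min (ε / 4) (1 / 4 : ℝ) ≤ 1 / 4 := min_le_right _ _
    have hm0 : 0 < min (ε / 4) (1 / 4 : ℝ) := lt_min (by positivity) (by norm_num)
    obtain ⟨X0, hX0⟩ := count_det h_P_N0 h_P_N1 h_P_N3 h_P_N4 h_P_KF h_P_N5b h_P_N6 h_P_N3a a κ ν
      ha hκ1 (by linarith) (by linarith) (ε / 4) (by positivity)
    obtain ⟨C, hC, hfin⟩ := transfer a κ ν (beta a κ) ε ha hκ1 (by linarith) (by linarith) hβ0 hε
      (1 / 2) (by norm_num) le_rfl (max X0 1) (by
        intro X hX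
        have h1 : ((Finset.Ioc X (2 * X)).filter (fun D => IsFund D ∧
            BadL a κ ν (beta a κ + ε / 2) X D)) = ∅ := by
          apply Finset.filter_eq_empty_iff.2
          rintro D hD ⟨hD2, K, i1, i2, g1, g2, P0, q, g3, g4, g5, g6⟩
          refine hX0 X (le_trans (le_max_left _ _) hX) D hD hD2
            ⟨K, i1, i2, g1, g2, P0, q, g3, g4, g5, fun hle => g6 (hle.trans ?_)⟩
          have hX1 : 1 ≤ X := le_trans (le_max_right _ _) hX
          have hXr : (1 : ℝ) ≤ X := by exact_mod_cast hX1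
          have h2 : (X : ℝ) ^ (1 / 2 - ν * (1 - κ - 1 / a) + ε / 4) ≤
              (X : ℝ) ^ (beta a κ + ε / 2) := by
            apply Real.rpow_le_rpow_of_exponent_le hXr
            rw [hβ, hν]
            have h3 : min (ε / 4) (1 / 4 : ℝ) * (1 - κ - 1 / a) ≤ ε / 4 * 1 := by
              apply mul_le_mul hm1 (by linarith) (by linarith) (by positivity)
            nlinarith
          exact mul_le_mul_of_nonneg_right h2 (Nat.cast_nonneg _)
        rw [h1, Finset.card_empty, Nat.cast_zero]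
        positivity)
    exact ⟨1 / 2, C, by norm_num, hC, hfin⟩
  · -- long products
    have hβ : beta a κ = max (κ / (1 - 1 / a + κ)) (κ + 1 / a - 1 / 2) := min_eq_right hc
    have ht : 0 < 1 - 1 / a + κ := by linarith
    obtain ⟨ν, hν, hν1, hγ⟩ : ∃ ν : ℝ, 0 < ν ∧ ν ≤ 1 ∧
        max (1 / 2 - ν * (1 - κ - 1 / a)) (2 * (ν * κ)) ≤ beta a κ := by
      rw [hβ]
      rcases le_total (1 / 2) (1 - 1 / a + κ) with h | h
      · refine ⟨1 / (2 * (1 - 1 / a + κ)), by positivity, ?_, ?_⟩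
        · rw [div_le_one (by positivity)]
          linarith
        · refine le_trans (le_of_eq ?_) (le_max_left _ _)
          have e1 : 1 / 2 - 1 / (2 * (1 - 1 / a + κ)) * (1 - κ - 1 / a) = κ / (1 - 1 / a + κ) := by
            have e0 : 1 - κ - 1 / a = (1 - 1 / a + κ) - 2 * κ := by ring
            rw [e0]
            generalize 1 - 1 / a + κ = t at ht
            field_simp
            ring
          have e2 : 2 * (1 / (2 * (1 - 1 / a + κ)) * κ) = κ / (1 - 1 / a + κ) := by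
            field_simp
          rw [e1, e2, max_self]
      · refine ⟨1, one_pos, le_rfl, ?_⟩
        refine le_trans ?_ (le_max_right _ _)
        apply max_le
        · linarith
        · linarith
    obtain ⟨δ, hδ, hδ2, X0, hX0⟩ := count_avg h_P_N0 h_P_N1 h_P_N3 h_P_N4 h_P_KF h_P_N5b h_P_N6
      h_P_N3a a κ ν ha hκ1 hν hν1 (ε / 2) (by positivity)
    obtain ⟨C, hC, hfin⟩ := transfer a κ ν (beta a κ) ε ha hκ1 hν hν1 hβ0 hε
      δ hδ hδ2 (max X0 1) (by
        intro X hX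
        refine le_trans ?_ (hX0 X (le_trans (le_max_left _ _) hX))
        have h1 : ((Finset.Ioc X (2 * X)).filter (fun D => IsFund D ∧
            BadL a κ ν (beta a κ + ε / 2) X D)) ⊆ ((Finset.Ioc X (2 * X)).filter (fun D =>
            IsFund D ∧ BadL a κ ν (max (1 / 2 - ν * (1 - κ - 1 / a)) (2 * (ν * κ)) + ε / 2) X D)) := by
          intro D hD
          rw [Finset.mem_filter] at hD ⊢
          obtain ⟨hD1, hD2, K, i1, i2, g1, g2, P0, q, g3, g4, g5, g6⟩ := hD
          refine ⟨hD1, hD2, K, i1, i2, g1, g2, P0, q, g3, g4, g5, fun hle => g6 (hle.trans ?_)⟩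
          have hX1 : 1 ≤ X := le_trans (le_max_right _ _) hX
          have hXr : (1 : ℝ) ≤ X := by exact_mod_cast hX1
          have h2 : (X : ℝ) ^ (max (1 / 2 - ν * (1 - κ - 1 / a)) (2 * (ν * κ)) + ε / 2) ≤
              (X : ℝ) ^ (beta a κ + ε / 2) :=
            Real.rpow_le_rpow_of_exponent_le hXr (by linarith)
          exact mul_le_mul_of_nonneg_right h2 (Nat.cast_nonneg _)
        exact_mod_cast Finset.card_le_card h1)
    exact ⟨δ, C, hδ, hC, hfin⟩

end Pool.Agent.H977.LQ
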