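import Mathlib

/-!
# The choice of the parameters
-/

set_option autoImplicit false

namespace Pool.Agent.H977.LQ

open Filter Real

/-- the bound for the primes -/
noncomputable def YY (a L : ℝ) : ℕ := ⌈(L + 2) ^ a⌉₊

/-- the number of factors -/
noncomputable def kk (ν a L : ℝ) : ℕ := ⌊ν * L / Real.log (YY a L)⌋₊

/-- a lower bound for the number of factors -/
noncomputable def gg (ν a L : ℝ) : ℝ := ν * L / (a * Real.log L + (a + 1)) - 1

theorem log_div : Tendsto (fun L : ℝ => Real.log L / L) atTop (nhds 0) :=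
  Real.isLittleO_log_id_atTop.tendsto_div_nhds_zero

theorem lim_g (ν a : ℝ) (ha : 1 < a) :
    Tendsto (fun L => gg ν a L * Real.log L / L) atTop (nhds (ν / a)) := by
  have h1 : Tendsto (fun L : ℝ => (a + 1) / Real.log L) atTop (nhds 0) :=
    Real.tendsto_log_atTop.const_div_atTop _
  have h2 : Tendsto (fun L : ℝ => ν / (a + (a + 1) / Real.log L) - Real.log L / L) atTop
      (nhds (ν / (a + 0) - 0)) := by
    refine Tendsto.sub ?_ log_div
    refine Tendsto.div tendsto_const_nhds (tendsto_const_nhds.add h1) ?_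
    rw [add_zero]
    linarith
  rw [add_zero, sub_zero] at h2
  refine h2.congr' ?_
  filter_upwards [eventually_gt_atTop 1] with L hL
  have hl : 0 < Real.log L := Real.log_pos hL
  have h3 : 0 < a * Real.log L + (a + 1) := by positivity
  have h4 : a + (a + 1) / Real.log L = (a * Real.log L + (a + 1)) / Real.log L := by
    field_simp
  rw [h4]
  unfold gg
  field_simp

/-- the main estimates, for the logarithm `L` of the size of the discriminants -/
theorem est (a κ ν η : ℝ) (ha : 1 < a) (hκ1 : κ < 1 - 1 / a) (hν : 0 < ν)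
    (hν1 : ν ≤ 1) (hη : 0 < η) : ∀ᶠ L : ℝ in atTop,
    1 ≤ kk ν a L ∧ (kk ν a L : ℝ) * Real.log (YY a L) ≤ ν * L ∧
    (kk ν a L : ℝ) * Real.log 400 ≤ η * L ∧
    (ν / a - η) * L ≤ kk ν a L * (Real.log (kk ν a L) - 1) ∧
    (ν * (1 - κ - 1 / a) - η) * L ≤
      kk ν a L * ((a * (1 - κ)) * Real.log L - Real.log 4 - Real.log (kk ν a L)) ∧
    (kk ν a L : ℝ) ≤ L ^ (a * (1 - κ)) / 4 ∧
    (∀ x : ℝ, L - 2 ≤ x → x ≤ L + 1 → x ^ a ≤ YY a L ∧
      L ^ (a * (1 - κ)) / 4 + 1 ≤ (x ^ a) ^ (1 - κ) ∧ (kk ν a L : ℝ) ≤ x / Real.log x) := by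
  have ha0 : 0 < a := by linarith
  have hc1 : 1 < a * (1 - κ) := by
    have h1 : 1 / a < 1 - κ := by linarith
    rw [div_lt_iff₀ ha0] at h1
    linarith
  have hg := lim_g ν a ha
  have hva : 0 < ν / a := by positivity
  -- limits
  have hl := Real.tendsto_log_atTop
  have l1 : Tendsto (fun L => gg ν a L * Real.log L / L * ((a * (1 - κ) - 1) - 2 / Real.log L))
      atTop (nhds (ν / a * ((a * (1 - κ) - 1) - 0))) :=
    hg.mul (tendsto_const_nhds.sub (hl.const_div_atTop _))
  have l2 : Tendsto (fun L => gg ν a L * Real.log L / L *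
      (1 - 2 * (Real.log (Real.log L) / Real.log L) - 1 / Real.log L))
      atTop (nhds (ν / a * (1 - 2 * 0 - 0))) :=
    hg.mul ((tendsto_const_nhds.sub ((log_div.comp hl).const_mul 2)).sub
      (hl.const_div_atTop _))
  have l3 : Tendsto (fun L => gg ν a L * Real.log L / L * Real.log L) atTop atTop :=
    Tendsto.pos_mul_atTop hva hg hl
  have l4 : Tendsto (fun L : ℝ => (L - 2) / L) atTop (nhds 1) := by
    have h1 : Tendsto (fun L : ℝ => 1 - 2 / L) atTop (nhds (1 - 0)) :=
      tendsto_const_nhds.sub (tendsto_id.const_div_atTop _)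
    rw [sub_zero] at h1
    refine h1.congr' ?_
    filter_upwards [eventually_gt_atTop 0] with L hL
    field_simp
  have l5 : Tendsto (fun L : ℝ => ((L - 2) / L) ^ (a * (1 - κ))) atTop (nhds 1) := by
    have h := l4.rpow_const (p := a * (1 - κ)) (Or.inl one_ne_zero)
    rwa [Real.one_rpow] at h
  have l6 : Tendsto (fun L : ℝ => L ^ (a * (1 - κ) - 1)) atTop atTop :=
    tendsto_rpow_atTop (by linarith)
  have l7 : Tendsto (fun L : ℝ => (1 + Real.log L) / L) atTop (nhds 0) := by
    have h1 : Tendsto (fun L : ℝ => 1 / L + Real.log L / L) atTop (nhds (0 + 0)) :=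
      (tendsto_id.const_div_atTop _).add log_div
    rw [add_zero] at h1
    refine h1.congr' ?_
    filter_upwards [eventually_gt_atTop 0] with L hL
    field_simp
  have l8 : Tendsto (fun L : ℝ => ((L - 2) / L) * (Real.log L / (Real.log L + 1))) atTop
      (nhds (1 * 1)) := by
    refine l4.mul ?_
    have h1 : Tendsto (fun L : ℝ => 1 - 1 / (Real.log L + 1)) atTop (nhds (1 - 0)) :=
      tendsto_const_nhds.sub ((tendsto_atTop_add_const_right _ _ hl).const_div_atTop _)
    rw [sub_zero] at h1
    refine h1.congr' ?_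
    filter_upwards [eventually_gt_atTop 1] with L hL
    have : 0 < Real.log L := Real.log_pos hL
    field_simp
    ring
  have e1 : ν * (1 - κ - 1 / a) - η < ν / a * ((a * (1 - κ) - 1) - 0) := by
    have : ν / a * ((a * (1 - κ) - 1) - 0) = ν * (1 - κ - 1 / a) := by field_simp; ring
    linarith
  have e2 : ν / a - η < ν / a * (1 - 2 * 0 - 0) := by
    have : ν / a * (1 - 2 * 0 - 0) = ν / a := by ring
    linarith
  have e8 : 1 / a < 1 * 1 := by
    rw [div_lt_iff₀ ha0]
    linarith
  filter_upwards [l1.eventually (lt_mem_nhds e1), l2.eventually (lt_mem_nhds e2),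
    l3.eventually_ge_atTop 1, l5.eventually (lt_mem_nhds (show (1 : ℝ) / 2 < 1 by norm_num)),
    l6.eventually_ge_atTop 4, l8.eventually (lt_mem_nhds e8), hl.eventually_ge_atTop (6 / (a * η)),
    hl.eventually_ge_atTop 2, hl.eventually_ge_atTop (2 / (a * (1 - κ) - 1)),
    eventually_ge_atTop (8 : ℝ),
    (hl.eventually (log_div.eventually (gt_mem_nhds (show (0 : ℝ) < 1 / 4 by norm_num))))]
    with L f1 f2 f3 f5 f6 f8 f9 f10 f11 f12 f14
  set l := Real.log L with hldef
  have hl0 : 0 < l := by linarith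
  have hL0 : 0 < L := by linarith
  have hL1 : 1 ≤ L := by linarith
  -- the size of `Y`
  have hY1 : (L + 2) ^ a ≤ YY a L := Nat.le_ceil _
  have hY0 : (0 : ℝ) < YY a L := lt_of_lt_of_le (by positivity) hY1
  have hYlow : a * l ≤ Real.log (YY a L) := by
    have h1 := Real.log_le_log (by positivity) hY1
    rw [Real.log_rpow (by linarith)] at h1
    have h2 : l ≤ Real.log (L + 2) := Real.log_le_log hL0 (by linarith)
    nlinarith
  have hYup : Real.log (YY a L) ≤ a * l + (a + 1) := by
    have h1 : (YY a L : ℝ) ≤ 2 * (2 * L) ^ a := by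
      have h2 : (YY a L : ℝ) < (L + 2) ^ a + 1 := Nat.ceil_lt_add_one (by positivity)
      have h3 : (L + 2) ^ a ≤ (2 * L) ^ a := Real.rpow_le_rpow (by linarith) (by linarith) ha0.le
      have h4 : (1 : ℝ) ≤ (2 * L) ^ a := Real.one_le_rpow (by linarith) ha0.le
      linarith
    have h2 := Real.log_le_log hY0 h1
    rw [Real.log_mul (by norm_num) (by positivity), Real.log_rpow (by linarith),
      Real.log_mul (by norm_num) hL0.ne'] at h2
    have h3 := Real.log_two_lt_d9
    have h4 : 0 < Real.log 2 := Real.log_pos (by norm_num)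
    nlinarith
  have hal : 0 < a * l := by positivity
  have hYlog0 : 0 < Real.log (YY a L) := lt_of_lt_of_le hal hYlow
  set k := kk ν a L with hk
  have hkup : (k : ℝ) ≤ ν * L / Real.log (YY a L) := Nat.floor_le (by positivity)
  have hkup2 : (k : ℝ) ≤ ν * L / (a * l) :=
    hkup.trans (div_le_div_of_nonneg_left (by positivity) hal hYlow)
  have hklow : gg ν a L ≤ k := by
    have h1 : ν * L / Real.log (YY a L) < k + 1 := Nat.lt_floor_add_one _
    have h2 : ν * L / (a * l + (a + 1)) ≤ ν * L / Real.log (YY a L) :=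
      div_le_div_of_nonneg_left (by positivity) hYlog0 hYup
    unfold gg
    linarith
  have hkL : (k : ℝ) ≤ L / (a * l) := by
    refine hkup2.trans ?_
    apply div_le_div_of_nonneg_right _ hal.le
    nlinarith
  have hal1 : 1 ≤ a * l := by
    calc (1 : ℝ) ≤ 1 * 1 := by norm_num
      _ ≤ a * l := mul_le_mul ha.le (by linarith) zero_le_one ha0.le
  have hkL2 : (k : ℝ) ≤ L := by
    refine hkL.trans ?_
    rw [div_le_iff₀ hal]
    exact le_mul_of_one_le_right hL0.le hal1
  -- the lower bound for `g`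
  have hgl : L / l ^ 2 ≤ gg ν a L := by
    rw [div_le_iff₀ (by positivity)]
    have h1 : gg ν a L * l / L * l = gg ν a L * l ^ 2 / L := by ring
    rw [h1, le_div_iff₀ hL0] at f3
    linarith
  have hg0 : 0 < gg ν a L := lt_of_lt_of_le (by positivity) hgl
  have hk0 : (0 : ℝ) < k := lt_of_lt_of_le hg0 hklow
  have hk1 : 1 ≤ k := by
    have : 0 < k := by exact_mod_cast hk0
    omega
  have hlogk : l - 2 * Real.log l ≤ Real.log k := by
    have h1 := Real.log_le_log (by positivity) (hgl.trans hklow)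
    rw [Real.log_div hL0.ne' (by positivity), Real.log_pow] at h1
    push_cast at h1
    linarith
  have hll : Real.log l ≤ l / 4 := by
    have h1 : Real.log l / l < 1 / 4 := f14
    rw [div_lt_iff₀ hl0] at h1
    linarith
  refine ⟨hk1, ?_, ?_, ?_, ?_, ?_, ?_⟩
  · rw [le_div_iff₀ hYlog0] at hkup
    exact hkup
  · have h400 : Real.log 400 ≤ 6 := by
      rw [Real.log_le_iff_le_exp (by norm_num)]
      have h3 := Real.exp_one_gt_d9
      have h4 : Real.exp 6 = Real.exp 1 ^ 6 := by
        rw [← Real.exp_nat_mul]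
        norm_num
      rw [h4]
      calc (400 : ℝ) ≤ 2.7182818283 ^ 6 := by norm_num
        _ ≤ Real.exp 1 ^ 6 := by gcongr
    calc (k : ℝ) * Real.log 400 ≤ (L / (a * l)) * 6 := by
          have : 0 ≤ Real.log 400 := Real.log_nonneg (by norm_num)
          gcongr
      _ ≤ η * L := by
          rw [div_mul_eq_mul_div, div_le_iff₀ hal]
          have h1 : 6 / (a * η) * (a * η) ≤ l * (a * η) := mul_le_mul_of_nonneg_right f9 (by positivity)
          rw [div_mul_cancel₀ _ (by positivity)] at h1
          nlinarith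
  · have h1 : (ν / a - η) * L ≤ gg ν a L * (l - 2 * Real.log l - 1) := by
      have h2 : gg ν a L * l / L * (1 - 2 * (Real.log l / l) - 1 / l) =
          gg ν a L * (l - 2 * Real.log l - 1) / L := by
        field_simp
      rw [h2, lt_div_iff₀ hL0] at f2
      exact f2.le
    refine h1.trans ?_
    have h3 : 0 ≤ l - 2 * Real.log l - 1 := by linarith
    exact mul_le_mul hklow (by linarith) h3 hk0.le
  · have h1 : (ν * (1 - κ - 1 / a) - η) * L ≤ gg ν a L * ((a * (1 - κ) - 1) * l - 2) := by
      have h2 : gg ν a L * l / L * ((a * (1 - κ) - 1) - 2 / l) =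
          gg ν a L * ((a * (1 - κ) - 1) * l - 2) / L := by
        field_simp
      rw [h2, lt_div_iff₀ hL0] at f1
      exact f1.le
    have hlogkL : Real.log k ≤ l := Real.log_le_log hk0 hkL2
    have hlog4 : Real.log 4 ≤ 2 := by
      rw [show (4 : ℝ) = 2 ^ 2 by norm_num, Real.log_pow]
      have := Real.log_two_lt_d9
      push_cast
      linarith
    have h3 : (a * (1 - κ) - 1) * l - 2 ≤ a * (1 - κ) * l - Real.log 4 - Real.log k := by
      linarith
    have h4 : 0 ≤ (a * (1 - κ) - 1) * l - 2 := by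
      rw [div_le_iff₀ (by linarith)] at f11
      linarith
    exact h1.trans (mul_le_mul hklow h3 h4 hk0.le)
  · have h1 : L ^ (a * (1 - κ)) = L ^ (a * (1 - κ) - 1) * L := by
      rw [← Real.rpow_add_one hL0.ne']
      congr 1
      ring
    rw [h1]
    nlinarith
  · intro x hx1 hx2
    have hx0 : 0 < x := by linarith
    have hκ2 : 0 < 1 - κ := by
      have : 0 < 1 / a := by positivity
      linarith
    refine ⟨?_, ?_, ?_⟩
    · refine le_trans ?_ hY1
      exact Real.rpow_le_rpow hx0.le (by linarith) ha0.le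
    · rw [← Real.rpow_mul hx0.le]
      have h1 : (L - 2) ^ (a * (1 - κ)) ≤ x ^ (a * (1 - κ)) :=
        Real.rpow_le_rpow (by linarith) hx1 (by positivity)
      have h2 : ((L - 2) / L) ^ (a * (1 - κ)) * L ^ (a * (1 - κ)) = (L - 2) ^ (a * (1 - κ)) := by
        rw [← Real.mul_rpow (div_nonneg (by linarith) hL0.le) hL0.le, div_mul_cancel₀ _ hL0.ne']
      have h3 : 4 * L ≤ L ^ (a * (1 - κ)) := by
        have h1 : L ^ (a * (1 - κ)) = L ^ (a * (1 - κ) - 1) * L := by
          rw [← Real.rpow_add_one hL0.ne']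
          congr 1
          ring
        rw [h1]
        nlinarith
      nlinarith
    · have hlx : Real.log x ≤ l + 1 := by
        have h1 : Real.log x ≤ Real.log (2 * L) := Real.log_le_log hx0 (by linarith)
        rw [Real.log_mul (by norm_num) hL0.ne'] at h1
        have := Real.log_two_lt_d9
        linarith
      have hlx0 : 0 < Real.log x := Real.log_pos (by linarith)
      rw [le_div_iff₀ hlx0]
      calc (k : ℝ) * Real.log x ≤ (L / (a * l)) * (l + 1) := by gcongr
        _ ≤ L - 2 := by
            have h1 : (L - 2) / L * (l / (l + 1)) = ((L - 2) * l) / (L * (l + 1)) := by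
              field_simp
            rw [h1, div_lt_div_iff₀ ha0 (by positivity)] at f8
            rw [div_mul_eq_mul_div, div_le_iff₀ hal]
            nlinarith
        _ ≤ x := hx1

end Pool.Agent.H977.LQ
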