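import Pool.Agent.H977.LQ.Avg
import Pool.Agent.R345.IXNum

/-!
# Products of prime ideals from a given set
-/

set_option autoImplicit false

namespace Pool.Agent.H977.LQ

open Finset Filter NumberField Pool.Agent.H38R2.CG Pool.Agent.H38R2.CG3
open scoped Classical

/-- the classes of the products of `k` of the prime ideals -/
noncomputable def classes (K : Type) [Field K] [NumberField K] (P0 : Finset ℕ)
    (q : ℕ → nonZeroDivisors (Ideal (𝓞 K))) (k : ℕ) : Finset (ClassGroup (𝓞 K)) :=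
  (P0.powersetCard k).image (fun s => ∏ p ∈ s, ClassGroup.mk0 (q p))

theorem reachQ (hN0 : P_N0) (hN1 : P_N1) (hN3 : P_N3) (h4 : P_N4) (hKF : P_KF)
    (h5b : P_N5b) (hN6 : P_N6) (K : Type) [Field K] [NumberField K] (D : ℕ)
    (hD : IsFund D) (h2 : Module.finrank ℚ K = 2) (hK : NumberField.discr K = (D : ℤ))
    (P0 : Finset ℕ) (hP : ∀ p ∈ P0, p.Prime ∧ p ≠ 2) (q : ℕ → nonZeroDivisors (Ideal (𝓞 K)))
    (hq : ∀ p ∈ P0, Ideal.absNorm (q p : Ideal (𝓞 K)) = p) (k : ℕ) :
    (Nat.card (ClassGroup (𝓞 K)) : ℝ) * ((P0.card.choose k : ℕ) : ℝ) ^ 2 ≤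
      ((classes K P0 q k).card : ℝ) *
        (2 * √(D : ℝ) * Lone D * SD D (P0.powersetCard k) (fun _ => 1)) := by
  set S := P0.powersetCard k with hS
  have hf : ∀ s ∈ S, (0 : ℝ) ≤ (fun _ : Finset ℕ => (1 : ℝ)) s ∧ ∀ p ∈ s, p.Prime ∧ p ≠ 2 := by
    intro s hs
    exact ⟨zero_le_one, fun p hp => hP p ((mem_powersetCard.1 hs).1 hp)⟩
  obtain ⟨hA, -⟩ := nf_classes hN0 hN1 hN3 h4 hKF h5b hN6 K D hD h2 hK S (fun _ => 1) hf
  set g : Finset ℕ → ClassGroup (𝓞 K) := fun s => ∏ p ∈ s, ClassGroup.mk0 (q p) with hg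
  set N : ClassGroup (𝓞 K) → ℝ := fun C => (((S.filter (fun s => g s = C)).card : ℕ) : ℝ) with hN
  have hN1' : ∀ C, 0 ≤ N C := fun C => Nat.cast_nonneg _
  have hNM : ∀ C, N C ≤ MC K S (fun _ => 1) C := by
    intro C
    have e1 : N C = ∑ s ∈ S, if g s = C then (1 : ℝ) else 0 := by
      rw [hN]
      simp only
      rw [Finset.card_filter]
      push_cast
      rfl
    rw [e1]
    unfold MC
    refine Finset.sum_le_sum fun s hs => ?_
    rw [one_mul]
    by_cases h : g s = C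
    · rw [if_pos h]
      have hsP := (mem_powersetCard.1 hs).1
      have hfin : Finite {I : nonZeroDivisors (Ideal (𝓞 K)) //
          Ideal.absNorm (I : Ideal (𝓞 K)) = prodS s ∧ ClassGroup.mk0 I = C} := by
        have h3 : {I : nonZeroDivisors (Ideal (𝓞 K)) |
            Ideal.absNorm (I : Ideal (𝓞 K)) = prodS s ∧ ClassGroup.mk0 I = C}.Finite :=
          (Ideal.finite_setOfPred_absNorm_le₀ (S := 𝓞 K) (prodS s)).subset
            fun I hI => hI.1.le
        exact h3.to_subtype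
      have hne : Nonempty {I : nonZeroDivisors (Ideal (𝓞 K)) //
          Ideal.absNorm (I : Ideal (𝓞 K)) = prodS s ∧ ClassGroup.mk0 I = C} := by
        refine ⟨⟨∏ p ∈ s, q p, ?_, ?_⟩⟩
        · rw [Submonoid.coe_finsetProd, map_prod]
          unfold prodS
          exact Finset.prod_congr rfl fun p hp => hq p (hsP hp)
        · rw [map_prod]
          exact h
      exact_mod_cast Nat.card_pos
    · rw [if_neg h]
      exact Nat.cast_nonneg _
  have hsum : ((P0.card.choose k : ℕ) : ℝ) = ∑ C ∈ classes K P0 q k, N C := by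
    have h1 : S.card = ∑ C ∈ classes K P0 q k, (S.filter (fun s => g s = C)).card :=
      Finset.card_eq_sum_card_image g S
    rw [← Finset.card_powersetCard, ← hS, h1]
    push_cast
    rfl
  have hCS : ((P0.card.choose k : ℕ) : ℝ) ^ 2 ≤ ((classes K P0 q k).card : ℝ) *
      ∑ C : ClassGroup (𝓞 K), (MC K S (fun _ => 1) C) ^ 2 := by
    rw [hsum]
    refine (sq_sum_le_card_mul_sum_sq (s := classes K P0 q k) (f := N)).trans ?_
    refine mul_le_mul_of_nonneg_left ?_ (Nat.cast_nonneg _)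
    refine (Finset.sum_le_sum fun C _ => pow_le_pow_left₀ (hN1' C) (hNM C) 2).trans ?_
    exact Finset.sum_le_sum_of_subset_of_nonneg (Finset.subset_univ _) fun C _ _ => sq_nonneg _
  have hh : (0 : ℝ) ≤ Nat.card (ClassGroup (𝓞 K)) := Nat.cast_nonneg _
  calc (Nat.card (ClassGroup (𝓞 K)) : ℝ) * ((P0.card.choose k : ℕ) : ℝ) ^ 2
      ≤ (Nat.card (ClassGroup (𝓞 K)) : ℝ) * (((classes K P0 q k).card : ℝ) *
        ∑ C : ClassGroup (𝓞 K), (MC K S (fun _ => 1) C) ^ 2) :=
        mul_le_mul_of_nonneg_left hCS hh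
    _ = ((classes K P0 q k).card : ℝ) * ((Nat.card (ClassGroup (𝓞 K)) : ℝ) *
        ∑ C : ClassGroup (𝓞 K), (MC K S (fun _ => 1) C) ^ 2) := by ring
    _ ≤ _ := mul_le_mul_of_nonneg_left hA (Nat.cast_nonneg _)

end Pool.Agent.H977.LQ
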